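import Pool.Agent.H5.NV.Stm

/-! # Bounds for the random map -/

set_option autoImplicit false

namespace Pool.Agent.H5.NV

open Finset
open Pool.Agent.W788.NV

theorem bnd_ (h : MK) (h1 : S_LR) (h2 : S_EXP) (h3 : S_DRF) (h4 : S_EXM) (h5 : S_DL)
    (h6 : S_TOT) : T_BND := by
  intro V _ _ G q θ Δ hΔ1 hq hθ0 hθ1 hdeg hΔ v t ht
  obtain ⟨δ, hδ0, hδ1, hδ2, D, hD1, hD2⟩ := exists_min hΔ1 hdeg hΔ
  have hr := (h6 V G q θ hq hθ0.le hθ1 hdeg).1
  have lr : ∀ F : Mp V q → ℝ, ex G q θ t F =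
      sg (mrate G q θ) (mL (V := V) (q := q)) t F id := by
    intro F
    exact h1 (V → Fin q) _ (mrate G q θ) act F t
  have smul : ∀ (c : ℝ) (F : Mp V q → ℝ), sg (mrate G q θ) (mL (V := V) (q := q)) t
      (fun Φ => c * F Φ) id = c * sg (mrate G q θ) (mL (V := V) (q := q)) t F id := by
    intro c F
    have h7 := h.lin (Mp V q) _ Unit (mrate G q θ) (mL (V := V) (q := q)) (fun _ => c)
      (fun _ => F) id t
    simpa using h7
  have hΔ0 : (0 : ℝ) < Δ := by linarith
  -- the initial value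
  have hid : wdep G (id : Mp V q) v ≤ Δ * δ := by
    have hs := (h5 V q id v).2.2.2
    unfold wdep
    calc ∑ w ∈ dep (id : Mp V q) v, (dg G w : ℝ) ≤ ∑ w ∈ ({v} : Finset V), (dg G w : ℝ) :=
          sum_le_sum_of_subset_of_nonneg hs (fun _ _ _ => by positivity)
      _ = (dg G v : ℝ) := by simp
      _ ≤ Δ * δ := hδ2 v
  have hw0 : ∀ Φ : Mp V q, 0 ≤ wdep G Φ v := fun Φ => sum_nonneg fun _ _ => by positivity
  have hcard : ∀ Φ : Mp V q, ((dep Φ v).card : ℝ) ≤ (1 / δ) * wdep G Φ v := by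
    intro Φ
    have e : δ * ((dep Φ v).card : ℝ) ≤ wdep G Φ v := by
      unfold wdep
      rw [card_eq_sum_ones, Nat.cast_sum, Finset.mul_sum]
      refine sum_le_sum fun w _ => ?_
      push_cast
      rw [mul_one]
      exact hδ1 w
    rw [one_div, inv_mul_eq_div, le_div_iff₀ hδ0]
    linarith
  -- part 1
  have p1 : ex G q θ t (fun Φ => ((dep Φ v).card : ℝ)) ≤ Δ * Real.exp (-θ * t) := by
    rw [lr]
    refine (h.mono _ _ _ _ _ (fun Φ => (1 / δ) * wdep G Φ v) id t hr ht hcard).trans ?_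
    rw [smul]
    have e := h2 (Mp V q) _ (mrate G q θ) (mL (V := V) (q := q)) (fun Φ => wdep G Φ v) (-θ) id t
      hr ht (fun Φ => (h3 V G q θ hq hθ0.le hθ1 hdeg Φ v).le)
    have e2 : Real.exp (-θ * t) * wdep G (id : Mp V q) v ≤ Real.exp (-θ * t) * (Δ * δ) :=
      mul_le_mul_of_nonneg_left hid (Real.exp_pos _).le
    have e3 := mul_le_mul_of_nonneg_left (e.trans e2) (show 0 ≤ 1 / δ by positivity)
    refine e3.trans (le_of_eq ?_)
    field_simp
  -- part 2
  have p2' : ∀ l : ℝ, 0 ≤ l → 2 * l * Δ ≤ θ → sg (mrate G q θ) (mL (V := V) (q := q)) t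
      (fun Φ => Real.exp ((l / δ) * wdep G Φ v)) id ≤ Real.exp (l * Δ) := by
    intro l hl hl2
    have hlδ : 0 ≤ l / δ := by positivity
    refine (h2 (Mp V q) _ (mrate G q θ) (mL (V := V) (q := q))
      (fun Φ => Real.exp ((l / δ) * wdep G Φ v)) 0 id t hr ht (fun Φ => ?_)).trans ?_
    · rw [zero_mul]
      refine h4 V G q θ D (l / δ) hq hθ0 hθ1 hdeg hD1 hlδ ?_ Φ v
      have e : 2 * (l / δ) * D ≤ 2 * (l / δ) * (Δ * δ) :=
        mul_le_mul_of_nonneg_left hD2 (by positivity)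
      refine (e.trans (le_of_eq ?_)).trans hl2
      field_simp
    · rw [zero_mul, Real.exp_zero, one_mul]
      apply Real.exp_le_exp.2
      refine (mul_le_mul_of_nonneg_left hid hlδ).trans (le_of_eq ?_)
      field_simp
  set l : ℝ := θ / (2 * Δ) with hl
  have hl0 : 0 < l := by positivity
  have hlΔ : l * Δ = θ / 2 := by
    rw [hl]
    field_simp
  have hl2 : 2 * l * Δ ≤ θ := by
    rw [mul_assoc, hlΔ]
    linarith
  have hcl : ∀ Φ : Mp V q, l * ((dep Φ v).card : ℝ) ≤ (l / δ) * wdep G Φ v := by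
    intro Φ
    refine (mul_le_mul_of_nonneg_left (hcard Φ) hl0.le).trans (le_of_eq ?_)
    field_simp
  refine ⟨p1, trivial, ?_, ?_, ?_⟩
  · intro M hM
    rw [lr]
    refine (h.mono _ _ _ _ _ (fun Φ => Real.exp (-(l * M)) * Real.exp ((l / δ) * wdep G Φ v)) id t
      hr ht (fun Φ => ?_)).trans ?_
    · rw [← Real.exp_add]
      split_ifs with hc
      · apply Real.one_le_exp
        have e1 := hcl Φ
        have e2 : l * M ≤ l * ((dep Φ v).card : ℝ) := mul_le_mul_of_nonneg_left hc.le hl0.le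
        linarith
      · exact (Real.exp_pos _).le
    · rw [smul]
      refine (mul_le_mul_of_nonneg_left (p2' l hl0.le hl2) (Real.exp_pos _).le).trans ?_
      rw [← Real.exp_add, hlΔ]
      apply le_of_eq
      congr 1
      rw [hl]
      ring
  · rw [lr]
    refine (h.mono _ _ _ _ _ (fun Φ => (8 * Δ ^ 2 / θ ^ 2) * Real.exp ((l / δ) * wdep G Φ v)) id t
      hr ht (fun Φ => ?_)).trans ?_
    · have hy0 : 0 ≤ l * ((dep Φ v).card : ℝ) := by positivity
      have e2 : (l * ((dep Φ v).card : ℝ)) ^ 2 / 2 ≤ Real.exp (l * ((dep Φ v).card : ℝ)) := by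
        have := Real.quadratic_le_exp_of_nonneg hy0
        linarith
      have e3 : ((dep Φ v).card : ℝ) ^ 2 =
          (8 * Δ ^ 2 / θ ^ 2) * ((l * ((dep Φ v).card : ℝ)) ^ 2 / 2) := by
        rw [hl]
        field_simp
        ring
      have e4 := Real.exp_le_exp.2 (hcl Φ)
      rw [e3]
      exact mul_le_mul_of_nonneg_left (e2.trans e4) (by positivity)
    · rw [smul]
      refine mul_le_mul_of_nonneg_left ?_ (by positivity)
      rw [← hlΔ]
      exact p2' l hl0.le hl2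
  · refine le_trans ?_ p1
    rw [lr, lr]
    refine h.mono _ _ _ _ _ _ id t hr ht (fun Φ => ?_)
    split_ifs with hc
    · have := card_pos.2 hc
      exact_mod_cast this
    · positivity

end Pool.Agent.H5.NV
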