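import Pool.Agent.H5.NV.Fin

/-!
# Cutoff if the ratio of the degrees is subpolynomial
-/

set_option autoImplicit false

open Finset Filter Topology

namespace Pool.Agent.H5.NV

open Pool.Agent.W788.NV

theorem cutoff {θ : ℝ} (h0 : 0 < θ) (h1 : θ ≤ 1) (V : ℕ → Type) [∀ n, Fintype (V n)]
    [∀ n, DecidableEq (V n)] (G : ∀ n, SimpleGraph (V n)) (q : ℕ → ℕ) (ρ : ℕ → ℝ)
    (x0 : ∀ n, V n → Fin (q n)) (μ : ∀ n, (V n → Fin (q n)) → ℝ)
    (hcard : Tendsto (fun n => Fintype.card (V n)) atTop atTop)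
    (hd : ∀ᶠ n in atTop, ∀ v, 1 ≤ dg (G n) v)
    (hD : ∀ᶠ n in atTop, ∀ v w, (dg (G n) v : ℝ) ≤ ρ n * dg (G n) w)
    (hq : ∀ᶠ n in atTop, 2 ≤ q n)
    (hρ : Tendsto (fun n => Real.log (ρ n) / Real.log (Fintype.card (V n))) atTop (𝓝 0))
    (hql : Tendsto (fun n => Real.log (q n) / Real.log (Fintype.card (V n))) atTop (𝓝 0))
    (hμ : ∀ᶠ n in atTop, IsStat (G n) (q n) θ (μ n)) :
    ∃ T : ℕ → ℝ, Tendsto T atTop atTop ∧
      (∀ ε : ℝ, 0 < ε → ε < 1 →
        Tendsto (fun n => tmix (G n) (q n) θ (x0 n) (μ n) ε / T n) atTop (𝓝 1)) ∧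
      ∀ a : ℝ, a < 1 / 8 → ∀ᶠ n in atTop, a * Real.log (Fintype.card (V n)) ≤ T n := by
  obtain ⟨C0, hC0⟩ := order (ε := 1 / 2) h0 h1 (by norm_num) (by norm_num)
  set L : ℕ → ℝ := fun n => Real.log (Fintype.card (V n)) with hL
  have hcardR : Tendsto (fun n => (Fintype.card (V n) : ℝ)) atTop atTop :=
    tendsto_natCast_atTop_atTop.comp hcard
  have hLtop : Tendsto L atTop atTop := Real.tendsto_log_atTop.comp hcardR
  have hn3 : ∀ᶠ n in atTop, 3 ≤ Fintype.card (V n) := hcard.eventually_ge_atTop 3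
  have hll : Tendsto (fun n => Real.log (L n) / L n) atTop (𝓝 0) := by
    have h1' : Tendsto (fun x : ℝ => Real.log x / x) atTop (𝓝 0) := by
      have := Real.isLittleO_log_id_atTop.tendsto_div_nhds_zero
      simpa using this
    exact h1'.comp hLtop
  have hinv : Tendsto (fun n => 1 / L n) atTop (𝓝 0) := by
    have h2' : Tendsto (fun x : ℝ => (1 : ℝ) / x) atTop (𝓝 0) := by
      simpa using tendsto_inv_atTop_zero (𝕜 := ℝ)
    exact h2'.comp hLtop
  set T : ℕ → ℝ := fun n => tmix (G n) (q n) θ (x0 n) (μ n) (1 / 2) with hT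
  have hTlow : ∀ᶠ n in atTop, (L n - 4 * Real.log (ρ n) - 4 * Real.log (q n) -
      Real.log (L n)) / 8 - C0 ≤ T n := by
    filter_upwards [hn3, hd, hD, hq, hμ] with n h3 hd hD hq hμ
    exact hC0 (q n) (V n) (G n) (x0 n) (μ n) (ρ n) hq hd hD h3 hμ
  -- the lower bound relative to `L`
  have hlim : Tendsto (fun n => (1 - 4 * (Real.log (ρ n) / L n) - 4 * (Real.log (q n) / L n) -
      Real.log (L n) / L n) / 8 - C0 * (1 / L n)) atTop
      (𝓝 ((1 - 4 * 0 - 4 * 0 - 0) / 8 - C0 * 0)) :=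
    (((((hρ.const_mul 4).const_sub 1).sub (hql.const_mul 4)).sub hll).div_const 8).sub
      (hinv.const_mul C0)
  have hz : ((1 - 4 * 0 - 4 * 0 - 0) / 8 - C0 * 0 : ℝ) = 1 / 8 := by norm_num
  rw [hz] at hlim
  have hLpos : ∀ᶠ n in atTop, 0 < L n := hLtop.eventually_gt_atTop 0
  have hTL : ∀ a : ℝ, a < 1 / 8 → ∀ᶠ n in atTop, a * L n ≤ T n := by
    intro a ha
    filter_upwards [hTlow, hlim.eventually (lt_mem_nhds ha), hLpos] with n h2 h3 h4
    have e : (1 - 4 * (Real.log (ρ n) / L n) - 4 * (Real.log (q n) / L n) -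
        Real.log (L n) / L n) / 8 - C0 * (1 / L n) =
        ((L n - 4 * Real.log (ρ n) - 4 * Real.log (q n) - Real.log (L n)) / 8 - C0) / L n := by
      field_simp
    rw [e, lt_div_iff₀ h4] at h3
    linarith
  have h16 := hTL (1 / 16) (by norm_num)
  refine ⟨T, ?_, ?_, hTL⟩
  · exact tendsto_atTop_mono' _ h16 (hLtop.const_mul_atTop (by norm_num))
  intro ε hε hε1
  obtain ⟨C1, hC1⟩ := window (ε := ε) h0 h1 hε hε1
  obtain ⟨C2, hC2⟩ := window (ε := 1 - ε) h0 h1 (by linarith) (by linarith)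
  set W : ℕ → ℝ := fun n => (2 * Real.log (ρ n) + Real.log (L n)) / θ + (|C1| + |C2|) with hW
  have hdiff : ∀ᶠ n in atTop, |tmix (G n) (q n) θ (x0 n) (μ n) ε - T n| ≤ W n := by
    filter_upwards [hn3, hd, hD, hq, hμ] with n h3 hd hD hq hμ
    have e1 := hC1 (q n) (V n) (G n) (x0 n) (μ n) (ρ n) (by omega) hd hD h3 hμ
    have e2 := hC2 (q n) (V n) (G n) (x0 n) (μ n) (ρ n) (by omega) hd hD h3 hμ
    have hsub : (1 : ℝ) - (1 - ε) = ε := by ring
    rw [hsub] at e2
    have hcd : ∀ v, dg (G n) v ≤ Fintype.card (V n) := fun v => by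
      unfold dg
      exact Finset.card_le_univ _
    have hanti := tmix_anti (G n) (q n) θ (Fintype.card (V n)) (by omega) h0 h1 hd hcd (x0 n)
      (μ n) hμ
    have a1 := le_abs_self C1
    have a2 := le_abs_self C2
    have a3 := abs_nonneg C1
    have a4 := abs_nonneg C2
    rcases le_total ε (1 / 2) with h | h
    · have b1 := hanti ε (1 / 2) hε h
      have b2 := hanti (1 / 2) (1 - ε) (by norm_num) (by linarith)
      rw [abs_of_nonneg (by simp only [hT]; linarith)]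
      simp only [hW, hT, hL]
      linarith
    · have b1 := hanti (1 / 2) ε (by norm_num) h
      have b2 := hanti (1 - ε) (1 / 2) (by linarith) (by linarith)
      rw [abs_of_nonpos (by simp only [hT]; linarith)]
      simp only [hW, hT, hL]
      linarith
  have hWL : Tendsto (fun n => W n / L n) atTop (𝓝 0) := by
    have h2 : Tendsto (fun n => (2 * (Real.log (ρ n) / L n) + Real.log (L n) / L n) / θ +
        (|C1| + |C2|) * (1 / L n)) atTop (𝓝 ((2 * 0 + 0) / θ + (|C1| + |C2|) * 0)) :=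
      (((hρ.const_mul 2).add hll).div_const θ).add (hinv.const_mul _)
    have hz2 : ((2 * 0 + 0) / θ + (|C1| + |C2|) * 0 : ℝ) = 0 := by simp
    rw [hz2] at h2
    refine h2.congr' ?_
    filter_upwards [hLpos] with n h4
    simp only [hW]
    field_simp
  have hWL16 : Tendsto (fun n => 16 * (W n / L n)) atTop (𝓝 0) := by
    simpa using hWL.const_mul 16
  rw [tendsto_iff_norm_sub_tendsto_zero]
  refine squeeze_zero' (Eventually.of_forall fun n => norm_nonneg _) ?_ hWL16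
  filter_upwards [h16, hLpos, hdiff] with n h2 h4 h5
  have hTpos : 0 < T n := lt_of_lt_of_le (by positivity) h2
  have hWn : 0 ≤ W n := (abs_nonneg _).trans h5
  rw [Real.norm_eq_abs]
  have : tmix (G n) (q n) θ (x0 n) (μ n) ε / T n - 1 =
      (tmix (G n) (q n) θ (x0 n) (μ n) ε - T n) / T n := by
    field_simp
  rw [this, abs_div, abs_of_pos hTpos, div_le_iff₀ hTpos]
  refine h5.trans ?_
  have e : 16 * (W n / L n) * ((1 / 16) * L n) = W n := by
    field_simp
  calc W n = 16 * (W n / L n) * ((1 / 16) * L n) := e.symm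
    _ ≤ 16 * (W n / L n) * T n := mul_le_mul_of_nonneg_left h2 (by positivity)

end Pool.Agent.H5.NV
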