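import Pool.Agent.H5.NV.Osc

namespace Pool.Agent.H5.NV.Lin

open Pool.Agent.H5.NV

open Finset Pool.Agent.W788.NV Pool.Agent.H5.NV.Osc

theorem act_eq {V : Type} [DecidableEq V] {q : ℕ} (e : (V × Fin q) ⊕ (V × V))
    (y : V → Fin q) : ∃ c, act e y = Function.update y (site e) c := by
  rcases e with p | p
  · exact ⟨p.2, rfl⟩
  · exact ⟨y p.2, rfl⟩

theorem ex_mono (h : MK) {V : Type} [Fintype V] [DecidableEq V] (G : SimpleGraph V) (q : ℕ)
    (θ t : ℝ) (F H : Mp V q → ℝ) (hr : ∀ e : (V × Fin q) ⊕ (V × V), 0 ≤ mrate G q θ e)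
    (ht : 0 ≤ t) (hFH : ∀ Φ, F Φ ≤ H Φ) : ex G q θ t F ≤ ex G q θ t H :=
  h.mono _ _ _ _ _ _ _ _ hr ht hFH

theorem ex_abs_le (h : MK) {V : Type} [Fintype V] [DecidableEq V] (G : SimpleGraph V) (q : ℕ)
    (θ t : ℝ) (F : Mp V q → ℝ) (hr : ∀ e : (V × Fin q) ⊕ (V × V), 0 ≤ mrate G q θ e)
    (ht : 0 ≤ t) (c : ℝ) (hF : ∀ Φ, |F Φ| ≤ c) : |ex G q θ t F| ≤ c := by
  rw [abs_le]
  constructor
  · have h1 := ex_mono h G q θ t (fun _ => -c) F hr ht (fun Φ => (abs_le.mp (hF Φ)).1)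
    have h2 : ex G q θ t (fun _ => -c) = -c := h.cst _ _ _ _ _ _ _
    linarith
  · have h1 := ex_mono h G q θ t F (fun _ => c) hr ht (fun Φ => (abs_le.mp (hF Φ)).2)
    have h2 : ex G q θ t (fun _ => c) = c := h.cst _ _ _ _ _ _ _
    linarith

theorem diff_le {V : Type} [Fintype V] [DecidableEq V] {q : ℕ} (B : ℝ) (hB : 0 ≤ B)
    (f : (V → Fin q) → ℝ)
    (hf : ∀ (x y : V → Fin q), |f x - f y| ≤ B * ((univ.filter (fun w => x w ≠ y w)).card : ℝ))
    (Φ : Mp V q) (e : (V × Fin q) ⊕ (V × V)) (y : V → Fin q) :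
    |f (Φ (act e y)) - f (Φ y)| ≤ B * ((dep Φ (site e)).card : ℝ) := by
  refine (hf _ _).trans (mul_le_mul_of_nonneg_left ?_ hB)
  have : (univ.filter (fun w => Φ (act e y) w ≠ Φ y w)) ⊆ dep Φ (site e) := by
    intro w hw
    rw [Finset.mem_filter] at hw
    obtain ⟨c, hc⟩ := act_eq e y
    rw [mem_dep]
    refine ⟨y, c, ?_⟩
    rw [← hc]
    exact hw.2
  exact_mod_cast Finset.card_le_card this

theorem lin_ (h : MK) (h1 : S_VAR) (h2 : S_TOT) (h3 : T_BND) (h5 : S_EVA) : T_LIN := by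
  intro V _ _ G q θ Δ h1Δ hq hθ0 hθ1 hd1 hdΔ t B f x0 ht hB hf
  have hΔpos : (0 : ℝ) < Δ := by linarith
  have hr := (h2 V G q θ hq hθ0.le hθ1 hd1).1
  set K : ℝ := 8 * Δ ^ 2 / θ ^ 2 * Real.exp (θ / 2) with hK
  set g : Mp V q → ℝ := fun Φ => f (Φ x0) with hg
  set U : ℝ → ℝ := fun τ => sg (mrate G q θ) (mR (V := V) (q := q)) τ
    (fun Φ => (sg (mrate G q θ) (mR (V := V) (q := q)) (t - τ) g Φ) ^ 2) id with hU
  have hder : ∀ τ, HasDerivAt U (sg (mrate G q θ) (mR (V := V) (q := q)) τ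
      (gam (mrate G q θ) (mR (V := V) (q := q))
        (sg (mrate G q θ) (mR (V := V) (q := q)) (t - τ) g)) id) τ :=
    fun τ => h1 _ _ _ _ _ _ _ _
  have hUt : U t = pt G q θ t (fun x => (f x) ^ 2) x0 := by
    rw [hU]
    simp only [sub_self]
    rw [h.zero]
    exact (h5 V G q θ t).1 (fun x => (f x) ^ 2) x0
  have hU0 : U 0 = (pt G q θ t f x0) ^ 2 := by
    rw [hU]
    simp only [sub_zero]
    rw [h.zero]
    rw [← (h5 V G q θ t).1 f x0]
    rfl
  rw [← hUt, ← hU0]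
  have hbound : ∀ τ, 0 ≤ τ → τ ≤ t → sg (mrate G q θ) (mR (V := V) (q := q)) τ
      (gam (mrate G q θ) (mR (V := V) (q := q))
        (sg (mrate G q θ) (mR (V := V) (q := q)) (t - τ) g)) id ≤
      (Fintype.card V : ℝ) * B ^ 2 * K := by
    intro τ hτ0 hτt
    have hpw : ∀ Φ : Mp V q, gam (mrate G q θ) (mR (V := V) (q := q))
        (sg (mrate G q θ) (mR (V := V) (q := q)) (t - τ) g) Φ ≤
        ∑ v : V, B ^ 2 * ((dep Φ v).card : ℝ) ^ 2 := by
      intro Φ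
      rw [← (h2 V G q θ hq hθ0.le hθ1 hd1).2 (fun v => B ^ 2 * ((dep Φ v).card : ℝ) ^ 2)]
      unfold gam
      apply Finset.sum_le_sum
      intro e _
      apply mul_le_mul_of_nonneg_left _ (hr e)
      rw [(h5 V G q θ (t - τ)).2 g (mR e Φ), (h5 V G q θ (t - τ)).2 g Φ, ← ex_sub h]
      have habs : |ex G q θ (t - τ) (fun Θ => g (fun x => mR e Φ (Θ x)) - g (fun x => Φ (Θ x)))| ≤
          B * ((dep Φ (site e)).card : ℝ) := by
        apply ex_abs_le h G q θ (t - τ) _ hr (by linarith)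
        intro Θ
        exact diff_le B hB f hf Φ e (Θ x0)
      calc (ex G q θ (t - τ) (fun Θ => g (fun x => mR e Φ (Θ x)) - g (fun x => Φ (Θ x)))) ^ 2
          ≤ (B * ((dep Φ (site e)).card : ℝ)) ^ 2 := by
            apply sq_le_sq'
            · linarith [(abs_le.mp habs).1]
            · exact (abs_le.mp habs).2
        _ = B ^ 2 * ((dep Φ (site e)).card : ℝ) ^ 2 := by ring
    calc sg (mrate G q θ) (mR (V := V) (q := q)) τ
          (gam (mrate G q θ) (mR (V := V) (q := q))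
            (sg (mrate G q θ) (mR (V := V) (q := q)) (t - τ) g)) id
        ≤ ex G q θ τ (fun Φ => ∑ v : V, B ^ 2 * ((dep Φ v).card : ℝ) ^ 2) :=
          ex_mono h G q θ τ _ _ hr hτ0 hpw
      _ = ∑ v : V, B ^ 2 * ex G q θ τ (fun Φ => ((dep Φ v).card : ℝ) ^ 2) :=
          ex_sum h G q θ τ (fun _ => B ^ 2) (fun v Φ => ((dep Φ v).card : ℝ) ^ 2)
      _ ≤ ∑ _v : V, B ^ 2 * K := by
          apply Finset.sum_le_sum
          intro v _
          exact mul_le_mul_of_nonneg_left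
            ((h3 V G q θ Δ h1Δ hq hθ0 hθ1 hd1 hdΔ v τ hτ0).2.2.2.1) (by positivity)
      _ = (Fintype.card V : ℝ) * B ^ 2 * K := by
          rw [Finset.sum_const, Finset.card_univ, nsmul_eq_mul]
          ring
  have hmv := Convex.image_sub_le_mul_sub_of_deriv_le (convex_Icc (0 : ℝ) t)
    (f := U) (fun τ _ => (hder τ).continuousAt.continuousWithinAt)
    (fun τ _ => (hder τ).differentiableAt.differentiableWithinAt)
    (C := (Fintype.card V : ℝ) * B ^ 2 * K)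
    (by
      intro τ hτ
      rw [interior_Icc] at hτ
      rw [(hder τ).deriv]
      exact hbound τ hτ.1.le hτ.2.le)
    0 ⟨le_refl _, ht⟩ t ⟨ht, le_refl _⟩ ht
  calc U t - U 0 ≤ (Fintype.card V : ℝ) * B ^ 2 * K * (t - 0) := hmv
    _ = t * Fintype.card V * B ^ 2 * K := by ring

end Pool.Agent.H5.NV.Lin
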