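import Pool.Agent.H5.NV.Stm

/-!
# Project NV: the lower bound (NV-LOW)
-/

set_option autoImplicit false
set_option linter.all false

namespace Pool.Agent.H5.NV.Low

open Pool.Agent.H5.NV

open Finset Pool.Agent.W788.NV

section

variable {V : Type} [Fintype V] [DecidableEq V] (G : SimpleGraph V) (q : ℕ) (θ : ℝ)

/-- the indicator of the colour `a` at `v` -/
def ind {V : Type} {q : ℕ} (a : Fin q) (v : V) (x : V → Fin q) : ℝ := if x v = a then 1 else 0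

theorem ind_nonneg (a : Fin q) (v : V) (x : V → Fin q) : 0 ≤ ind a v x := by
  unfold ind
  split_ifs <;> norm_num

theorem ind_le (a : Fin q) (v : V) (x : V → Fin q) : ind a v x ≤ 1 := by
  unfold ind
  split_ifs <;> norm_num

/-- the test function -/
noncomputable def FF (G : SimpleGraph V) {q : ℕ} (δ : ℝ) (a : Fin q) (m : V → ℝ) (x : V → Fin q) : ℝ :=
  ∑ v, (((dg G v : ℝ) / δ) * m v) * ind a v x

theorem FF_sens {δ : ℝ} (hδ : 0 < δ) (a : Fin q) (m : V → ℝ) (Δ : ℝ) (hΔ0 : 0 < Δ)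
    (hm : ∀ v, |m v| ≤ 1) (hd : ∀ v, (dg G v : ℝ) ≤ Δ * δ) (x y : V → Fin q) :
    |FF G δ a m x - FF G δ a m y| ≤ (Δ : ℝ) * ((univ.filter (fun w => x w ≠ y w)).card : ℝ) := by
  have h1 : (Δ : ℝ) * ((univ.filter (fun w => x w ≠ y w)).card : ℝ) =
      ∑ w, if x w ≠ y w then (Δ : ℝ) else 0 := by
    rw [← Finset.sum_filter, Finset.sum_const, nsmul_eq_mul, mul_comm]
  rw [h1, FF, FF, ← Finset.sum_sub_distrib]
  refine (Finset.abs_sum_le_sum_abs _ _).trans (Finset.sum_le_sum fun v _ => ?_)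
  by_cases hxy : x v = y v
  · simp [ind, hxy]
  · rw [if_pos hxy, ← mul_sub, abs_mul, abs_mul]
    have h2 : |ind a v x - ind a v y| ≤ 1 := by
      rw [abs_le]
      have e1 := ind_nonneg q a v x
      have e2 := ind_nonneg q a v y
      have e3 := ind_le q a v x
      have e4 := ind_le q a v y
      constructor <;> linarith
    have h3 : |(dg G v : ℝ) / δ| ≤ Δ := by
      rw [abs_of_nonneg (by positivity), div_le_iff₀ hδ]
      exact hd v
    calc |(dg G v : ℝ) / δ| * |m v| * |ind a v x - ind a v y| ≤ Δ * 1 * 1 := by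
          refine mul_le_mul (mul_le_mul h3 (hm v) (abs_nonneg _) hΔ0.le) h2
            (abs_nonneg _) (by positivity)
      _ = Δ := by ring

theorem FF_abs {δ : ℝ} (hδ : 0 < δ) (a : Fin q) (m : V → ℝ) (Δ : ℝ) (hΔ0 : 0 < Δ)
    (hm : ∀ v, |m v| ≤ 1) (hd : ∀ v, (dg G v : ℝ) ≤ Δ * δ)
    (x : V → Fin q) : |FF G δ a m x| ≤ (Fintype.card V : ℝ) * Δ := by
  have h1 : (Fintype.card V : ℝ) * Δ = ∑ _w : V, (Δ : ℝ) := by simp
  rw [h1, FF]
  refine (Finset.abs_sum_le_sum_abs _ _).trans (Finset.sum_le_sum fun v _ => ?_)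
  rw [abs_mul, abs_mul]
  have h2 : |ind a v x| ≤ 1 := by
    rw [abs_of_nonneg (ind_nonneg q a v x)]
    exact ind_le q a v x
  have h3 : |(dg G v : ℝ) / δ| ≤ Δ := by
    rw [abs_of_nonneg (by positivity), div_le_iff₀ hδ]
    exact hd v
  calc |(dg G v : ℝ) / δ| * |m v| * |ind a v x| ≤ Δ * 1 * 1 := by
        refine mul_le_mul (mul_le_mul h3 (hm v) (abs_nonneg _) hΔ0.le) h2
          (abs_nonneg _) (by positivity)
    _ = Δ := by ring

theorem mean_le {S : Type} [Fintype S] (μ f : S → ℝ) (hμ : IsPr μ) (c : ℝ) (h : ∀ x, f x ≤ c) :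
    mean μ f ≤ c := by
  have h1 : mean μ f ≤ ∑ x, μ x * c := Finset.sum_le_sum fun x _ =>
    mul_le_mul_of_nonneg_left (h x) (hμ.1 x)
  rwa [← Finset.sum_mul, hμ.2, one_mul] at h1

theorem le_mean {S : Type} [Fintype S] (μ f : S → ℝ) (hμ : IsPr μ) (c : ℝ) (h : ∀ x, c ≤ f x) :
    c ≤ mean μ f := by
  have h1 : ∑ x, μ x * c ≤ mean μ f := Finset.sum_le_sum fun x _ =>
    mul_le_mul_of_nonneg_left (h x) (hμ.1 x)
  rwa [← Finset.sum_mul, hμ.2, one_mul] at h1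

theorem mean_lin {S : Type} [Fintype S] (μ : S → ℝ) {κ : Type} [Fintype κ] (c : κ → ℝ)
    (f : κ → S → ℝ) : mean μ (fun x => ∑ k, c k * f k x) = ∑ k, c k * mean μ (f k) := by
  unfold mean
  simp only [Finset.mul_sum]
  rw [Finset.sum_comm]
  refine Finset.sum_congr rfl fun k _ => Finset.sum_congr rfl fun x _ => by ring

theorem pt_le (h : MK) (hr : ∀ e : (V × Fin q) ⊕ (V × V), 0 ≤ mrate G q θ e) (t : ℝ) (ht : 0 ≤ t)
    (f : (V → Fin q) → ℝ) (x0 : V → Fin q) (c : ℝ) (hf : ∀ x, f x ≤ c) : pt G q θ t f x0 ≤ c := by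
  have h1 := h.mono (V → Fin q) ((V × Fin q) ⊕ (V × V)) (mrate G q θ) (act (V := V) (q := q)) f
    (fun _ => c) x0 t hr ht hf
  rwa [h.cst] at h1

theorem le_pt (h : MK) (hr : ∀ e : (V × Fin q) ⊕ (V × V), 0 ≤ mrate G q θ e) (t : ℝ) (ht : 0 ≤ t)
    (f : (V → Fin q) → ℝ) (x0 : V → Fin q) (c : ℝ) (hf : ∀ x, c ≤ f x) : c ≤ pt G q θ t f x0 := by
  have h1 := h.mono (V → Fin q) ((V × Fin q) ⊕ (V × V)) (mrate G q θ) (act (V := V) (q := q))
    (fun _ => c) f x0 t hr ht hf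
  rwa [h.cst] at h1

end

/-- NV-LOW -/
theorem low_ (h : MK) (h1 : T_LIN) (h2 : S_CHB) (h3 : S_LAW) (h4 : T_OSC) (h5 : T_ONE)
    (h6 : S_TOT) : T_LOW := by
  intro V _ _ G q θ Δ h1Δ hq hθ hθ1 hd1 hd x0 μ t u hμ ht hu
  have hΔpos : (0 : ℝ) < Δ := by linarith
  have hq1 : 1 ≤ q := by omega
  have hqr : (2 : ℝ) ≤ q := by exact_mod_cast hq
  obtain ⟨hr, -⟩ := h6 V G q θ hq1 hθ.le hθ1 hd1
  obtain ⟨l1, l2, l3⟩ := h3 V G q θ hq1 hθ hθ1 hd1
  have hpμ : IsPr μ := ⟨hμ.1, hμ.2.1⟩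
  have hpl := l1 x0 t ht
  obtain ⟨a, -⟩ : ∃ a : Fin q, True := ⟨⟨0, by omega⟩, trivial⟩
  obtain ⟨δ, hδ0, hδ1, hδ2, -⟩ := exists_min h1Δ hd1 hd
  obtain ⟨o1, o2⟩ := h5 V G q θ hq hθ hθ1 hd1 δ hδ0 hδ1 x0 a t ht
  obtain ⟨m, hm⟩ : ∃ m : V → ℝ, ∀ v, m v = pt G q θ t (ind a v) x0 - 1 / q :=
    ⟨fun v => pt G q θ t (ind a v) x0 - 1 / q, fun v => rfl⟩
  have hm1 : ∀ v, |m v| ≤ 1 := by
    intro v
    have e1 := pt_le G q θ h hr t ht (ind a v) x0 1 (ind_le q a v)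
    have e2 := le_pt G q θ h hr t ht (ind a v) x0 0 (ind_nonneg q a v)
    have e3 : (0 : ℝ) ≤ 1 / q := by positivity
    have e4 : (1 : ℝ) / q ≤ 1 := by
      rw [div_le_one (by linarith)]
      linarith
    rw [hm, abs_le]
    constructor <;> linarith
  obtain ⟨F, hF⟩ : ∃ F, F = FF G δ a m := ⟨_, rfl⟩
  have hFs : ∀ x y : V → Fin q,
      |F x - F y| ≤ (Δ : ℝ) * ((univ.filter (fun w => x w ≠ y w)).card : ℝ) := by
    rw [hF]
    exact FF_sens G q hδ0 a m Δ hΔpos hm1 hδ2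
  obtain ⟨C, hC⟩ : ∃ C : ℝ, C = (Fintype.card V : ℝ) * Δ := ⟨_, rfl⟩
  have hC0 : 0 ≤ C := by rw [hC]; positivity
  have hFa : ∀ x, |F x| ≤ C := by
    rw [hF, hC]
    exact FF_abs G q hδ0 a m Δ hΔpos hm1 hδ2
  -- the difference of the means
  have d1 : mean (law G q θ x0 t) F = ∑ v, (((dg G v : ℝ) / δ) * m v) * pt G q θ t (ind a v) x0 := by
    rw [l2, hF]
    exact h.lin (V → Fin q) ((V × Fin q) ⊕ (V × V)) V (mrate G q θ) (act (V := V) (q := q))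
      (fun v => ((dg G v : ℝ) / δ) * m v) (fun v => ind a v) x0 t
  have d2 : mean μ F = ∑ v, (((dg G v : ℝ) / δ) * m v) * (1 / q) := by
    have e : F = fun x => ∑ v, (((dg G v : ℝ) / δ) * m v) * ind a v x := by
      rw [hF]
      rfl
    rw [e, mean_lin]
    refine Finset.sum_congr rfl fun v _ => ?_
    rw [← o2 μ hμ v]
    rfl
  have d3 : (Fintype.card V : ℝ) * Real.exp (-4 * t) / q ^ 2 ≤
      mean (law G q θ x0 t) F - mean μ F := by
    rw [d1, d2, ← Finset.sum_sub_distrib]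
    have o3 := mul_le_mul_of_nonneg_left o1 (show 0 ≤ 1 / δ by positivity)
    have o4 : 1 / δ * (δ * ((Fintype.card V : ℝ) * Real.exp (-4 * t) / q ^ 2)) =
        (Fintype.card V : ℝ) * Real.exp (-4 * t) / q ^ 2 := by
      field_simp
    rw [o4, Finset.mul_sum] at o3
    refine o3.trans (le_of_eq (Finset.sum_congr rfl fun v _ => ?_))
    have e : pt G q θ t (fun x => if x v = a then 1 else 0) x0 = pt G q θ t (ind a v) x0 := rfl
    rw [e, hm]
    ring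
  have hL0 : 0 ≤ (Fintype.card V : ℝ) * Real.exp (-4 * t) / q ^ 2 := by positivity
  have d4 : ((Fintype.card V : ℝ) * Real.exp (-4 * t) / q ^ 2) ^ 2 ≤
      (mean (law G q θ x0 t) F - mean μ F) ^ 2 := pow_le_pow_left₀ hL0 d3 2
  -- the variances
  obtain ⟨K, hK⟩ : ∃ K : ℝ, K = 8 * Δ ^ 2 / θ ^ 2 * Real.exp (θ / 2) := ⟨_, rfl⟩
  have hK0 : 0 ≤ K := by rw [hK]; positivity
  have v1 : vr (law G q θ x0 t) F ≤ t * Fintype.card V * Δ ^ 2 * K := by
    rw [vr, l2, l2, hK]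
    exact h1 V G q θ Δ h1Δ hq1 hθ hθ1 hd1 hd t Δ F x0 ht hΔpos.le hFs
  have v2 : pt G q θ u (fun x => F x ^ 2) x0 - (pt G q θ u F x0) ^ 2 ≤
      u * Fintype.card V * Δ ^ 2 * K := by
    rw [hK]
    exact h1 V G q θ Δ h1Δ hq1 hθ hθ1 hd1 hd u Δ F x0 hu hΔpos.le hFs
  obtain ⟨Ex, hEx⟩ : ∃ Ex : ℝ, Ex = Fintype.card V * Δ * Real.exp (-θ * u) := ⟨_, rfl⟩
  have hE0 : 0 ≤ Ex := by rw [hEx]; positivity
  have v3 : mean μ (fun x => F x ^ 2) ≤ pt G q θ u (fun x => F x ^ 2) x0 + C ^ 2 * Ex := by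
    rw [← l3 μ hμ u]
    refine mean_le μ _ hpμ _ fun x => ?_
    have e := h4 V G q θ Δ h1Δ hq1 hθ hθ1 hd1 hd u (C ^ 2) (fun x => F x ^ 2) x x0 hu (by
      intro z z'
      have e1 : F z ^ 2 ≤ C ^ 2 := by
        rw [← sq_abs (F z)]
        exact pow_le_pow_left₀ (abs_nonneg _) (hFa z) 2
      have e2 : 0 ≤ F z' ^ 2 := sq_nonneg _
      show F z ^ 2 - F z' ^ 2 ≤ C ^ 2
      linarith)
    rw [← hEx] at e
    linarith
  have osc : ∀ z z', F z - F z' ≤ 2 * C := by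
    intro z z'
    have e1 := (abs_le.1 (hFa z)).2
    have e2 := (abs_le.1 (hFa z')).1
    linarith
  have v4 : |pt G q θ u F x0 - mean μ F| ≤ 2 * C * Ex := by
    have e1 : mean μ F ≤ pt G q θ u F x0 + 2 * C * Ex := by
      rw [← l3 μ hμ u]
      refine mean_le μ _ hpμ _ fun x => ?_
      have e := h4 V G q θ Δ h1Δ hq1 hθ hθ1 hd1 hd u (2 * C) F x x0 hu osc
      rw [← hEx] at e
      linarith
    have e2 : pt G q θ u F x0 - 2 * C * Ex ≤ mean μ F := by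
      rw [← l3 μ hμ u]
      refine le_mean μ _ hpμ _ fun x => ?_
      have e := h4 V G q θ Δ h1Δ hq1 hθ hθ1 hd1 hd u (2 * C) F x0 x hu osc
      rw [← hEx] at e
      linarith
    rw [abs_le]
    constructor <;> linarith
  have v5 : |pt G q θ u F x0| ≤ C := by
    rw [abs_le]
    exact ⟨le_pt G q θ h hr u hu F x0 (-C) fun x => (abs_le.1 (hFa x)).1,
      pt_le G q θ h hr u hu F x0 C fun x => (abs_le.1 (hFa x)).2⟩
  have v6 : |mean μ F| ≤ C := by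
    rw [abs_le]
    exact ⟨le_mean μ F hpμ (-C) fun x => (abs_le.1 (hFa x)).1,
      mean_le μ F hpμ C fun x => (abs_le.1 (hFa x)).2⟩
  have v7 : (pt G q θ u F x0) ^ 2 - (mean μ F) ^ 2 ≤ 4 * C ^ 2 * Ex := by
    have e1 : (pt G q θ u F x0) ^ 2 - (mean μ F) ^ 2 =
        (pt G q θ u F x0 - mean μ F) * (pt G q θ u F x0 + mean μ F) := by ring
    have e2 : |pt G q θ u F x0 + mean μ F| ≤ 2 * C :=
      (abs_add_le _ _).trans (by linarith)
    rw [e1]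
    refine (le_abs_self _).trans ?_
    rw [abs_mul]
    calc |pt G q θ u F x0 - mean μ F| * |pt G q θ u F x0 + mean μ F| ≤ (2 * C * Ex) * (2 * C) :=
          mul_le_mul v4 e2 (abs_nonneg _) (by positivity)
      _ = 4 * C ^ 2 * Ex := by ring
  have v8 : vr μ F ≤ u * Fintype.card V * Δ ^ 2 * K + 5 * C ^ 2 * Ex := by
    rw [vr]
    linarith
  have hfin : 2 * (vr (law G q θ x0 t) F + vr μ F) ≤
      2 * ((t + u) * Fintype.card V * Δ ^ 2 * K + 5 * C ^ 2 * Ex) := by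
    have e : (t + u) * Fintype.card V * Δ ^ 2 * K =
      t * Fintype.card V * Δ ^ 2 * K + u * Fintype.card V * Δ ^ 2 * K := by ring
    rw [e]
    linarith
  have hR : 0 ≤ 2 * ((t + u) * Fintype.card V * Δ ^ 2 * K + 5 * C ^ 2 * Ex) := by positivity
  rw [hK, hC, hEx] at hfin hR
  rcases le_or_gt 0 (1 - tv (law G q θ x0 t) μ) with hc | hc
  · have c1 := h2 (V → Fin q) (law G q θ x0 t) μ F hpl hpμ
    exact (mul_le_mul_of_nonneg_left d4 hc).trans (c1.trans hfin)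
  · exact (mul_nonpos_of_nonpos_of_nonneg hc.le (sq_nonneg _)).trans hR

end Pool.Agent.H5.NV.Low
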