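import Pool.Agent.H5.NV.Stm

/-!
# The one-point biases: the energy is at least a constant times the number of vertices times the minimal degree
-/

set_option autoImplicit false

namespace Pool.Agent.H5.NV.One

open Pool.Agent.H5.NV

open Finset Pool.Agent.W788.NV Pool.Agent.W371.NV.One

variable {V : Type} [Fintype V] [DecidableEq V] (G : SimpleGraph V) (q : ℕ) (θ : ℝ)

theorem NN_lower' (h : MK) (hq : 2 ≤ q) (hθ0 : 0 < θ) (hθ1 : θ ≤ 1) (hd : ∀ v, 1 ≤ dg G v)
    {δ : ℝ} (hδ : ∀ v, δ ≤ dg G v)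
    (x0 : V → Fin q) (a : Fin q) (t : ℝ) (ht : 0 ≤ t) :
    δ * ((Fintype.card V : ℝ) * Real.exp (-4 * t) / q ^ 2) ≤ NN G q θ x0 a t := by
  have hq2 : (2 : ℝ) ≤ q := by exact_mod_cast hq
  have hE : ∀ t : ℝ, HasDerivAt (fun t : ℝ => Real.exp (4 * t)) (Real.exp (4 * t) * 4) t := by
    intro t
    have h1 : HasDerivAt (fun t : ℝ => 4 * t) 4 t := by
      simpa using (hasDerivAt_id t).const_mul (4 : ℝ)
    exact h1.exp
  have hmono : MonotoneOn (fun t => Real.exp (4 * t) * NN G q θ x0 a t) (Set.Ici 0) := by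
    have hder : ∀ t : ℝ, HasDerivAt (fun t => Real.exp (4 * t) * NN G q θ x0 a t)
        (Real.exp (4 * t) * 4 * NN G q θ x0 a t + Real.exp (4 * t) *
          (∑ v, (dg G v : ℝ) * (2 * bias G q θ x0 a t v *
        (-(bias G q θ x0 a t v) + ∑ w, ρ G q θ v w * bias G q θ x0 a t w)))) t := fun t =>
      (hE t).mul (NN_deriv G q θ h hq hd x0 a t)
    refine monotoneOn_of_deriv_nonneg (convex_Ici 0)
      (fun t _ => (hder t).continuousAt.continuousWithinAt)
      (fun t _ => (hder t).differentiableAt.differentiableWithinAt) fun t _ => ?_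
    rw [(hder t).deriv]
    have h1 := cross G q θ hd hθ0 hθ1 (bias G q θ x0 a t)
    have h2 : 0 < Real.exp (4 * t) := Real.exp_pos _
    have h3 : NN G q θ x0 a t = ∑ v, (dg G v : ℝ) * bias G q θ x0 a t v ^ 2 := rfl
    rw [← h3] at h1
    nlinarith
  have h1 := hmono (Set.mem_Ici.2 le_rfl) (Set.mem_Ici.2 ht) ht
  simp only [mul_zero, Real.exp_zero, one_mul] at h1
  have h0 : δ * ((Fintype.card V : ℝ) / q ^ 2) ≤ NN G q θ x0 a 0 := by
    unfold NN
    have h2 : δ * ((Fintype.card V : ℝ) / q ^ 2) = ∑ _v : V, δ * (1 / (q : ℝ) ^ 2) := by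
      rw [Finset.sum_const, nsmul_eq_mul, Finset.card_univ]; ring
    rw [h2]
    refine Finset.sum_le_sum fun v _ => ?_
    have h3 : bias G q θ x0 a 0 v = ind q a v x0 - 1 / q := by
      unfold bias pt
      rw [h.zero]
    rw [h3]
    have h4 : 1 / (q : ℝ) ^ 2 ≤ (ind q a v x0 - 1 / q) ^ 2 := by
      unfold ind
      split_ifs
      · have h5 : 1 / (q : ℝ) ≤ 1 / 2 := by
          rw [div_le_div_iff₀ (by linarith) (by norm_num)]; linarith
        have h6 : 0 ≤ 1 / (q : ℝ) := by positivity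
        rw [show 1 / (q : ℝ) ^ 2 = (1 / q) ^ 2 by rw [div_pow, one_pow]]
        nlinarith
      · rw [zero_sub, neg_sq, div_pow, one_pow]
    exact mul_le_mul (hδ v) h4 (by positivity) (by positivity)
  have h3 : Real.exp (-4 * t) * Real.exp (4 * t) = 1 := by
    rw [← Real.exp_add]; simp
  calc δ * ((Fintype.card V : ℝ) * Real.exp (-4 * t) / q ^ 2) =
      Real.exp (-4 * t) * (δ * ((Fintype.card V : ℝ) / q ^ 2)) := by ring
    _ ≤ Real.exp (-4 * t) * (Real.exp (4 * t) * NN G q θ x0 a t) :=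
        mul_le_mul_of_nonneg_left (h0.trans h1) (Real.exp_pos _).le
    _ = NN G q θ x0 a t := by rw [← mul_assoc, h3, one_mul]

theorem one_ (h : MK) (h1 : S_LAW) : T_ONE := by
  intro V _ _ G q θ hq hθ0 hθ1 hd δ _ hδ x0 a t ht
  refine ⟨?_, fun μ hμ v => ?_⟩
  · exact NN_lower' G q θ h hq hθ0 hθ1 hd hδ x0 a t ht
  · exact stat G q θ h h1 hq hθ0 hθ1 hd a μ hμ v

end Pool.Agent.H5.NV.One
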