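import Pool.Agent.H5.NV.Stm

namespace Pool.Agent.H5.NV.Osc

open Pool.Agent.H5.NV

open Finset Pool.Agent.W788.NV

theorem mem_dep {V : Type} [Fintype V] [DecidableEq V] {q : ℕ} (Φ : Mp V q) (v w : V) :
    w ∈ dep Φ v ↔ ∃ x a, Φ (Function.update x v a) w ≠ Φ x w := by
  simp [dep]

theorem const_of_dep {V : Type} [Fintype V] [DecidableEq V] {q : ℕ} (Φ : Mp V q)
    (hd : ∀ v, dep Φ v = ∅) (x y : V → Fin q) : Φ x = Φ y := by
  have hu : ∀ (z : V → Fin q) (v : V) (a : Fin q), Φ (Function.update z v a) = Φ z := by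
    intro z v a
    funext w
    by_contra hne
    have : w ∈ dep Φ v := (mem_dep Φ v w).mpr ⟨z, a, hne⟩
    rw [hd v] at this
    simp at this
  have key : ∀ s : Finset V, Φ (fun v => if v ∈ s then y v else x v) = Φ x := by
    intro s
    induction s using Finset.induction_on with
    | empty => simp
    | insert v s hv ih =>
      have : (fun w => if w ∈ insert v s then y w else x w) =
          Function.update (fun w => if w ∈ s then y w else x w) v (y v) := by
        funext w
        by_cases hw : w = v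
        · subst hw; simp
        · simp [hw]
      rw [this, hu, ih]
  have := key univ
  simp at this
  exact this.symm

theorem ex_sum (h : MK) {V : Type} [Fintype V] [DecidableEq V] (G : SimpleGraph V) (q : ℕ)
    (θ t : ℝ) {κ : Type} [Fintype κ] (c : κ → ℝ) (F : κ → Mp V q → ℝ) :
    ex G q θ t (fun Φ => ∑ k, c k * F k Φ) = ∑ k, c k * ex G q θ t (F k) :=
  h.lin _ _ _ _ _ _ _ _ _

theorem ex_sub (h : MK) {V : Type} [Fintype V] [DecidableEq V] (G : SimpleGraph V) (q : ℕ)
    (θ t : ℝ) (F H : Mp V q → ℝ) :
    ex G q θ t (fun Φ => F Φ - H Φ) = ex G q θ t F - ex G q θ t H := by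
  have := ex_sum h G q θ t (κ := Bool) (fun b => if b then 1 else -1)
    (fun b => if b then F else H)
  simp only [Fintype.sum_bool, if_true, Bool.false_eq_true, if_false, one_mul, neg_one_mul,
    ← sub_eq_add_neg] at this
  exact this

theorem osc_ (h : MK) (h1 : S_TOT) (h2 : T_BND) (h3 : S_EVA) (_h4 : S_LOC) : T_OSC := by
  intro V _ _ G q θ Δ h1Δ hq hθ0 hθ1 hd1 hdΔ t c f x y ht hc
  have hΔpos : (0 : ℝ) < Δ := by linarith
  have hc0 : 0 ≤ c := by
    have := hc x x
    simpa using this
  rw [← ((h3 V G q θ t).1 f x), ← ((h3 V G q θ t).1 f y), ← ex_sub h]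
  have hr := (h1 V G q θ hq hθ0.le hθ1 hd1).1
  calc ex G q θ t (fun Φ => f (Φ x) - f (Φ y))
      ≤ ex G q θ t (fun Φ => ∑ v : V, c * (if (dep Φ v).Nonempty then (1 : ℝ) else 0)) := by
        refine h.mono _ _ _ _ _ _ _ _ hr ht ?_
        intro Φ
        by_cases hne : ∃ v, (dep Φ v).Nonempty
        · obtain ⟨v, hv⟩ := hne
          have hle : c * (if (dep Φ v).Nonempty then (1 : ℝ) else 0) ≤
              ∑ v : V, c * (if (dep Φ v).Nonempty then (1 : ℝ) else 0) := by
            apply Finset.single_le_sum (f := fun v => c * (if (dep Φ v).Nonempty then (1 : ℝ) else 0))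
            · intro w _
              split_ifs <;> simp [hc0]
            · exact Finset.mem_univ v
          rw [if_pos hv, mul_one] at hle
          exact (hc _ _).trans hle
        · push Not at hne
          have : Φ x = Φ y := const_of_dep Φ (fun v => by simpa using hne v) x y
          rw [this, sub_self]
          apply Finset.sum_nonneg
          intro w _
          split_ifs <;> simp [hc0]
    _ = ∑ v : V, c * ex G q θ t (fun Φ => (if (dep Φ v).Nonempty then (1 : ℝ) else 0)) :=
        ex_sum h G q θ t (fun _ => c) (fun v Φ => (if (dep Φ v).Nonempty then (1 : ℝ) else 0))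
    _ ≤ ∑ _v : V, c * (Δ * Real.exp (-θ * t)) := by
        apply Finset.sum_le_sum
        intro v _
        exact mul_le_mul_of_nonneg_left
          ((h2 V G q θ Δ h1Δ hq hθ0 hθ1 hd1 hdΔ v t ht).2.2.2.2) hc0
    _ = c * (Fintype.card V * Δ * Real.exp (-θ * t)) := by
        rw [Finset.sum_const, Finset.card_univ, nsmul_eq_mul]
        ring

end Pool.Agent.H5.NV.Osc
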