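import Pool.Agent.H5.NV.Stm

/-!
# Project NV: part UPP
-/

set_option autoImplicit false

namespace Pool.Agent.H5.NV.Upp

open Pool.Agent.H5.NV

open Pool.Agent.W788.NV Finset

theorem tv_eq {S : Type} [Fintype S] (μ ν g : S → ℝ) (hμ : ∑ x, μ x = 1) (hν : ∑ x, ν x = 1)
    (hg1 : ∀ x, ν x < μ x → g x = 1) (hg0 : ∀ x, ¬ ν x < μ x → g x = 0) :
    tv μ ν = mean μ g - mean ν g := by
  have h1 : ∀ x, |μ x - ν x| = 2 * (μ x * g x - ν x * g x) - (μ x - ν x) := by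
    intro x
    by_cases h : ν x < μ x
    · rw [hg1 x h, abs_of_pos (by linarith)]
      ring
    · rw [hg0 x h, abs_of_nonpos (by linarith)]
      ring
  unfold tv mean
  rw [Finset.sum_congr rfl (fun x _ => h1 x), Finset.sum_sub_distrib, Finset.sum_sub_distrib,
    hμ, hν, ← Finset.mul_sum, Finset.sum_sub_distrib]
  ring

theorem upp_ (_h : MK) (h1 : S_LAW) (h2 : T_OSC) (_h3 : S_TOT) : T_UPP := by
  classical
  intro V _ _ G q θ Δ h1Δ hq hθ hθ1 hd hΔ x0 μ t hμ ht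
  have hΔpos : (0 : ℝ) < Δ := by linarith
  obtain ⟨hA, hB, hC⟩ := h1 V G q θ hq hθ hθ1 hd
  obtain ⟨hl0, hl1⟩ := hA x0 t ht
  obtain ⟨hμ0, hμ1, -⟩ := id hμ
  obtain ⟨g, hg⟩ : ∃ g : (V → Fin q) → ℝ, g = fun y => if μ y < law G q θ x0 t y then 1 else 0 :=
    ⟨_, rfl⟩
  have g1 : ∀ y, μ y < law G q θ x0 t y → g y = 1 := fun y h => by rw [hg]; exact if_pos h
  have g0 : ∀ y, ¬ μ y < law G q θ x0 t y → g y = 0 := fun y h => by rw [hg]; exact if_neg h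
  have gosc : ∀ z z', g z - g z' ≤ 1 := by
    intro z z'
    by_cases hz : μ z < law G q θ x0 t z <;> by_cases hz' : μ z' < law G q θ x0 t z'
    · rw [g1 z hz, g1 z' hz']; norm_num
    · rw [g1 z hz, g0 z' hz']; norm_num
    · rw [g0 z hz, g1 z' hz']; norm_num
    · rw [g0 z hz, g0 z' hz']; norm_num
  rw [tv_eq _ _ g hl1 hμ1 g1 g0, hB x0 t g, ← hC μ hμ t g]
  have e1 : pt G q θ t g x0 = ∑ y, μ y * pt G q θ t g x0 := by
    rw [← Finset.sum_mul, hμ1, one_mul]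
  unfold mean
  rw [e1, ← Finset.sum_sub_distrib]
  have e2 : Fintype.card V * Δ * Real.exp (-θ * t) =
      ∑ y, μ y * (1 * (Fintype.card V * Δ * Real.exp (-θ * t))) := by
    rw [← Finset.sum_mul, hμ1, one_mul, one_mul]
  rw [e2]
  refine Finset.sum_le_sum fun y _ => ?_
  rw [← mul_sub]
  exact mul_le_mul_of_nonneg_left (h2 V G q θ Δ h1Δ hq hθ hθ1 hd hΔ t 1 g x0 y ht gosc) (hμ0 y)

end Pool.Agent.H5.NV.Upp
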