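import Pool.Agent.H5.NV.Stm

set_option autoImplicit false

namespace Pool.Agent.H5.NV.Win

open Pool.Agent.H5.NV

open Finset Pool.Agent.W788.NV

lemma tv_eq {S : Type} [Fintype S] (a b : S → ℝ) (h : ∑ x, a x = ∑ x, b x) (g : S → ℝ)
    (hg : ∀ x, g x = if b x < a x then 1 else 0) : tv a b = mean a g - mean b g := by
  unfold tv mean
  rw [← Finset.sum_sub_distrib]
  have h1 : ∑ x, |a x - b x| = ∑ x, (2 * (a x * g x - b x * g x) - (a x - b x)) := by
    refine Finset.sum_congr rfl fun x _ => ?_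
    rw [hg]
    by_cases hx : b x < a x
    · rw [if_pos hx, abs_of_pos (by linarith)]; ring
    · rw [if_neg hx, abs_of_nonpos (by linarith)]; ring
  rw [h1, Finset.sum_sub_distrib, ← Finset.mul_sum]
  have h2 : ∑ x, (a x - b x) = 0 := by rw [Finset.sum_sub_distrib, h, sub_self]
  rw [h2]
  ring

lemma mean_le {S : Type} [Fintype S] (μ : S → ℝ) (hμ : IsPr μ) (f : S → ℝ) (c : ℝ)
    (hf : ∀ x, f x ≤ c) : mean μ f ≤ c := by
  unfold mean
  calc ∑ x, μ x * f x ≤ ∑ x, μ x * c :=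
        Finset.sum_le_sum fun x _ => mul_le_mul_of_nonneg_left (hf x) (hμ.1 x)
    _ = c := by rw [← Finset.sum_mul, hμ.2, one_mul]

lemma le_mean {S : Type} [Fintype S] (μ : S → ℝ) (hμ : IsPr μ) (f : S → ℝ) (c : ℝ)
    (hf : ∀ x, c ≤ f x) : c ≤ mean μ f := by
  unfold mean
  calc c = ∑ x, μ x * c := by rw [← Finset.sum_mul, hμ.2, one_mul]
    _ ≤ ∑ x, μ x * f x :=
        Finset.sum_le_sum fun x _ => mul_le_mul_of_nonneg_left (hf x) (hμ.1 x)

theorem win_ (h : MK) (h1 : T_MAIN) (h2 : S_CHB) (h3 : S_LAW) (h4 : T_OSC) (h5 : S_TOT) :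
    T_WIN := by
  classical
  intro V _ _ G q θ Δ h1Δ hq hθ hθ1 hdg hΔ x0 μ s r u M hμ hs hr hu hM
  have hΔpos : (0 : ℝ) < Δ := by linarith
  obtain ⟨hL1, hL2, hL3⟩ := h3 V G q θ hq hθ hθ1 hdg
  have hrate := (h5 V G q θ hq hθ.le hθ1 hdg).1
  have hμp : IsPr μ := ⟨hμ.1, hμ.2.1⟩
  have hsr : IsPr (law G q θ x0 (s + r)) := hL1 x0 (s + r) (by linarith)
  -- bounds for the semigroup
  have hpt0 : ∀ (t : ℝ) (F : (V → Fin q) → ℝ), 0 ≤ t → (∀ x, 0 ≤ F x) → ∀ x, 0 ≤ pt G q θ t F x := by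
    intro t F ht hF x
    have e1 := h.mono _ _ (mrate G q θ) (act (V := V) (q := q)) (fun _ => 0) F x t hrate ht hF
    rw [h.cst] at e1
    exact e1
  have hpt1 : ∀ (t : ℝ) (F : (V → Fin q) → ℝ), 0 ≤ t → (∀ x, F x ≤ 1) → ∀ x, pt G q θ t F x ≤ 1 := by
    intro t F ht hF x
    have e1 := h.mono _ _ (mrate G q θ) (act (V := V) (q := q)) F (fun _ => 1) x t hrate ht hF
    rw [h.cst] at e1
    exact e1
  -- the test function
  let g : (V → Fin q) → ℝ := fun x => if μ x < law G q θ x0 (s + r) x then 1 else 0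
  have hg : ∀ x, 0 ≤ g x ∧ g x ≤ 1 := by
    intro x
    by_cases hx : μ x < law G q θ x0 (s + r) x
    · have : g x = 1 := if_pos hx
      rw [this]; norm_num
    · have : g x = 0 := if_neg hx
      rw [this]; norm_num
  have htv : tv (law G q θ x0 (s + r)) μ = mean (law G q θ x0 (s + r)) g - mean μ g :=
    tv_eq _ _ (by rw [hsr.2, hμp.2]) g fun x => rfl
  let f : (V → Fin q) → ℝ := pt G q θ r g
  have hf0 : ∀ x, 0 ≤ f x := hpt0 r g hr fun x => (hg x).1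
  have hf1 : ∀ x, f x ≤ 1 := hpt1 r g hr fun x => (hg x).2
  have hm1 : mean (law G q θ x0 s) f = mean (law G q θ x0 (s + r)) g := by
    rw [hL2, hL2]
    have e := h.add _ _ (mrate G q θ) (act (V := V) (q := q)) g s r
    exact (congrFun e x0).symm
  have hm2 : mean μ f = mean μ g := hL3 μ hμ r g
  have hC := h2 (V → Fin q) (law G q θ x0 s) μ f (hL1 x0 s hs) hμp
  rw [hm1, hm2, ← htv] at hC
  -- first variance
  have hv1 : vr (law G q θ x0 s) f ≤ Δ * Real.exp (-θ * r) * M +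
      s * Fintype.card V * Real.exp (θ / 2 - θ * M / (2 * Δ)) := by
    unfold vr
    rw [hL2, hL2]
    exact h1 V G q θ Δ h1Δ hq hθ hθ1 hdg hΔ s r M g x0 hs hr hM hg
  -- second variance
  have hv2' := h1 V G q θ Δ h1Δ hq hθ hθ1 hdg hΔ u r M g x0 hu hr hM hg
  set E : ℝ := (Fintype.card V : ℝ) * Δ * Real.exp (-θ * u) with hE
  have hE0 : 0 ≤ E := by positivity
  have hsq0 : ∀ x, 0 ≤ (f x) ^ 2 := fun x => sq_nonneg _
  have hsq1 : ∀ x, (f x) ^ 2 ≤ 1 := fun x => pow_le_one₀ (hf0 x) (hf1 x)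
  have ho1 : ∀ x, pt G q θ u (fun x => (f x) ^ 2) x ≤ pt G q θ u (fun x => (f x) ^ 2) x0 + E := by
    intro x
    have := h4 V G q θ Δ h1Δ hq hθ hθ1 hdg hΔ u 1 (fun x => (f x) ^ 2) x x0 hu
      (fun z z' => by linarith [hsq0 z', hsq1 z])
    rw [one_mul] at this
    linarith
  have ho2 : ∀ x, pt G q θ u f x0 - E ≤ pt G q θ u f x := by
    intro x
    have := h4 V G q θ Δ h1Δ hq hθ hθ1 hdg hΔ u 1 f x0 x hu (fun z z' => by linarith [hf0 z', hf1 z])
    rw [one_mul] at this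
    linarith
  have hA : mean μ (fun x => (f x) ^ 2) ≤ pt G q θ u (fun x => (f x) ^ 2) x0 + E := by
    rw [← hL3 μ hμ u (fun x => (f x) ^ 2)]
    exact mean_le μ hμp _ _ ho1
  have hB : pt G q θ u f x0 - E ≤ mean μ f := by
    rw [← hL3 μ hμ u f]
    exact le_mean μ hμp _ _ ho2
  have hb0 : 0 ≤ mean μ f := le_mean μ hμp _ _ hf0
  have hb1 : mean μ f ≤ 1 := mean_le μ hμp _ _ hf1
  have ha0 : 0 ≤ pt G q θ u f x0 := hpt0 u f hu hf0 x0
  have ha1 : pt G q θ u f x0 ≤ 1 := hpt1 u f hu hf1 x0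
  have hD : (pt G q θ u f x0) ^ 2 - (mean μ f) ^ 2 ≤ 2 * E := by
    have e1 : (pt G q θ u f x0) ^ 2 - (mean μ f) ^ 2 =
        (pt G q θ u f x0 - mean μ f) * (pt G q θ u f x0 + mean μ f) := by ring
    rw [e1]
    calc (pt G q θ u f x0 - mean μ f) * (pt G q θ u f x0 + mean μ f)
        ≤ E * (pt G q θ u f x0 + mean μ f) :=
          mul_le_mul_of_nonneg_right (by linarith) (by linarith)
      _ ≤ E * 2 := mul_le_mul_of_nonneg_left (by linarith) hE0
      _ = 2 * E := by ring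
  have hv2 : vr μ f ≤ Δ * Real.exp (-θ * r) * M +
      u * Fintype.card V * Real.exp (θ / 2 - θ * M / (2 * Δ)) + 3 * E := by
    unfold vr
    have e2 : pt G q θ u (fun x => (f x) ^ 2) x0 - (pt G q θ u f x0) ^ 2 ≤
        Δ * Real.exp (-θ * r) * M + u * Fintype.card V * Real.exp (θ / 2 - θ * M / (2 * Δ)) := hv2'
    linarith
  calc (tv (law G q θ x0 (s + r)) μ) ^ 2 * (1 - tv (law G q θ x0 s) μ)
      = (1 - tv (law G q θ x0 s) μ) * (tv (law G q θ x0 (s + r)) μ) ^ 2 := by ring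
    _ ≤ 2 * (vr (law G q θ x0 s) f + vr μ f) := hC
    _ ≤ 2 * ((Δ * Real.exp (-θ * r) * M +
          s * Fintype.card V * Real.exp (θ / 2 - θ * M / (2 * Δ))) +
          (Δ * Real.exp (-θ * r) * M +
          u * Fintype.card V * Real.exp (θ / 2 - θ * M / (2 * Δ)) + 3 * E)) := by linarith
    _ = _ := by ring

end Pool.Agent.H5.NV.Win
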