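import Pool.Agent.H5.NV.Bnd
import Pool.Agent.H5.NV.Main
import Pool.Agent.H5.NV.Lin
import Pool.Agent.H5.NV.Osc
import Pool.Agent.H5.NV.Upp
import Pool.Agent.H5.NV.Win
import Pool.Agent.H5.NV.One
import Pool.Agent.H5.NV.Low
import Pool.Graph.R_seed8.W788.NV.Top

/-!
# The window and the order of the mixing time, in terms of the ratio of the degrees
-/

set_option autoImplicit false

open Finset Filter Topology

namespace Pool.Agent.H5.NV

open Pool.Agent.W788.NV

theorem t_bnd : T_BND := bnd_ p_mk p_lr p_exp p_drf p_exm p_dl p_tot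
theorem t_main : T_MAIN := Main.main_ p_mk p_var p_tot t_bnd p_loc p_eva
theorem t_lin : T_LIN := Lin.lin_ p_mk p_var p_tot t_bnd p_eva
theorem t_osc : T_OSC := Osc.osc_ p_mk p_tot t_bnd p_eva p_loc
theorem t_one : T_ONE := One.one_ p_mk p_law
theorem t_win : T_WIN := Win.win_ p_mk t_main p_chb p_law t_osc p_tot
theorem t_low : T_LOW := Low.low_ p_mk t_lin p_chb p_law t_osc t_one p_tot
theorem t_upp : T_UPP := Upp.upp_ p_mk p_law t_osc p_tot

lemma one_lt_log {n : ℕ} (hn : 3 ≤ n) : 1 < Real.log n := by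
  have h3 : (3:ℝ) ≤ n := by exact_mod_cast hn
  have h1 : Real.exp 1 < 3 := by
    have := Real.exp_one_lt_d9
    linarith
  rw [Real.lt_log_iff_exp_lt (by linarith)]
  linarith

lemma mem_tm {q : ℕ} {θ : ℝ} {ρ : ℝ} (hq : 1 ≤ q) (hθ : 0 < θ) (hθ1 : θ ≤ 1)
    (hρ : 1 ≤ ρ) {V : Type} [Fintype V] [DecidableEq V] (G : SimpleGraph V) (x0 : V → Fin q)
    (μ : (V → Fin q) → ℝ) (hd : ∀ v, 1 ≤ dg G v) (hD : ∀ v w, (dg G v : ℝ) ≤ ρ * dg G w)
    (hn : 3 ≤ Fintype.card V) (hμ : IsStat G q θ μ) (δ : ℝ) (hδ : 0 < δ) (hδ1 : δ < 1) :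
    0 ≤ Real.log (Fintype.card V * ρ / δ) / θ ∧
    Real.log (Fintype.card V * ρ / δ) / θ ∈
      {t : ℝ | 0 ≤ t ∧ tv (law G q θ x0 t) μ ≤ δ} := by
  have hn' : (3:ℝ) ≤ Fintype.card V := by exact_mod_cast hn
  have hnD : (1:ℝ) ≤ Fintype.card V * ρ := by nlinarith
  have hge : 1 ≤ Fintype.card V * ρ / δ := by
    rw [le_div_iff₀ hδ]
    linarith
  have h0 : 0 ≤ Real.log (Fintype.card V * ρ / δ) / θ :=
    div_nonneg (Real.log_nonneg hge) hθ.le
  refine ⟨h0, h0, ?_⟩
  have h3 := t_upp V G q θ ρ hρ hq hθ hθ1 hd hD x0 μ _ hμ h0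
  refine h3.trans ?_
  have e1 : -θ * (Real.log (Fintype.card V * ρ / δ) / θ) =
      -Real.log (Fintype.card V * ρ / δ) := by
    field_simp
  rw [e1, Real.exp_neg, Real.exp_log (by linarith)]
  have hne : (Fintype.card V * ρ : ℝ) ≠ 0 := by linarith
  rw [inv_div]
  field_simp
  exact le_refl _

lemma bdd (q : ℕ) (θ : ℝ) {V : Type} [Fintype V] [DecidableEq V] (G : SimpleGraph V)
    (x0 : V → Fin q) (μ : (V → Fin q) → ℝ) (δ : ℝ) :
    BddBelow {t : ℝ | 0 ≤ t ∧ tv (law G q θ x0 t) μ ≤ δ} :=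
  ⟨0, fun _ ht => ht.1⟩

lemma small (θ ε : ℝ) (hε : 0 < ε) :
    ∃ n0 : ℕ, 3 ≤ n0 ∧ ∀ n : ℕ, n0 ≤ n →
      2 * ((2 * Real.log n + Real.log (1 / (1 - ε))) / θ + 1 + 4 / θ * Real.log n) *
        (Real.exp (θ / 2) / n) + 6 / (n : ℝ) ^ 2 ≤ ε ^ 3 / 2 := by
  have hl : Tendsto (fun n : ℕ => Real.log n / n) atTop (𝓝 0) := by
    have h := (Real.tendsto_pow_log_div_mul_add_atTop 1 0 1 one_ne_zero).comp
      tendsto_natCast_atTop_atTop
    refine h.congr (fun n => ?_)
    simp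
  have hi : Tendsto (fun n : ℕ => (1:ℝ) / n) atTop (𝓝 0) := tendsto_const_div_atTop_nhds_zero_nat 1
  have hlim : Tendsto (fun n : ℕ =>
      (2 * (2 / θ + 4 / θ) * Real.exp (θ / 2)) * (Real.log n / n) +
      (2 * (Real.log (1 / (1 - ε)) / θ + 1) * Real.exp (θ / 2)) * (1 / n) +
      6 * ((1:ℝ) / n) ^ 2) atTop (𝓝 0) := by
    have := ((hl.const_mul (2 * (2 / θ + 4 / θ) * Real.exp (θ / 2))).add
      (hi.const_mul (2 * (Real.log (1 / (1 - ε)) / θ + 1) * Real.exp (θ / 2)))).add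
      ((hi.pow 2).const_mul 6)
    simpa using this
  have hpos : 0 < ε ^ 3 / 2 := by positivity
  have hev := hlim.eventually (ge_mem_nhds hpos)
  rw [eventually_atTop] at hev
  obtain ⟨n0, h0⟩ := hev
  refine ⟨max n0 3, le_max_right _ _, fun n hn => ?_⟩
  have h1 := h0 n ((le_max_left _ _).trans hn)
  refine le_trans (le_of_eq ?_) h1
  rw [div_pow, one_pow]
  ring

/-- the window, if the ratio is at most the number of vertices -/
theorem window1 {θ ε : ℝ} (hθ : 0 < θ) (hθ1 : θ ≤ 1) (hε : 0 < ε) (hε1 : ε < 1) :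
    ∃ C : ℝ, ∀ (q : ℕ) (V : Type) [Fintype V] [DecidableEq V] (G : SimpleGraph V) (x0 : V → Fin q)
      (μ : (V → Fin q) → ℝ) (ρ : ℝ), 1 ≤ q → (∀ v, 1 ≤ dg G v) → 1 ≤ ρ →
      (∀ v w, (dg G v : ℝ) ≤ ρ * dg G w) → 3 ≤ Fintype.card V → ρ ≤ Fintype.card V →
      IsStat G q θ μ →
      tmix G q θ x0 μ ε - tmix G q θ x0 μ (1 - ε) ≤
        (2 * Real.log ρ + Real.log (Real.log (Fintype.card V))) / θ + C := by
  obtain ⟨n0, hn03, hn0⟩ := small θ ε hε
  have hn03' : (3 : ℝ) ≤ n0 := by exact_mod_cast hn03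
  set K₀ : ℝ := 1 + 32 / (θ * ε ^ 3) with hK₀
  have hK₀1 : 1 ≤ K₀ := by
    rw [hK₀]
    have : 0 ≤ 32 / (θ * ε ^ 3) := by positivity
    linarith
  set C1 : ℝ := Real.log K₀ with hC1
  have hC1n : 0 ≤ C1 := Real.log_nonneg hK₀1
  set C2 : ℝ := Real.log ((n0:ℝ) * n0 / ε) / θ with hC2
  have hC2n : 0 ≤ C2 := by
    refine div_nonneg (Real.log_nonneg ?_) hθ.le
    rw [le_div_iff₀ hε]
    nlinarith
  refine ⟨C2 + 1 + C1 / θ, ?_⟩
  intro q V _ _ G x0 μ ρ hq1 hd hρ hD hn hρn hμ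
  have hC1θ : 0 ≤ C1 / θ := div_nonneg hC1n hθ.le
  have hlog1 : 1 < Real.log (Fintype.card V) := one_lt_log hn
  have hll : 0 ≤ Real.log (Real.log (Fintype.card V)) := Real.log_nonneg hlog1.le
  have hlρ : 0 ≤ Real.log ρ := Real.log_nonneg hρ
  have hllθ : 0 ≤ (2 * Real.log ρ + Real.log (Real.log (Fintype.card V))) / θ :=
    div_nonneg (by linarith) hθ.le
  have hρ0 : 0 < ρ := by linarith
  have hn3 : (3:ℝ) ≤ Fintype.card V := by exact_mod_cast hn
  have hnpos : (0:ℝ) < Fintype.card V := by linarith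
  obtain ⟨ha0, ha1⟩ := mem_tm hq1 hθ hθ1 hρ G x0 μ hd hD hn hμ ε hε hε1
  obtain ⟨hb0, hb1⟩ := mem_tm hq1 hθ hθ1 hρ G x0 μ hd hD hn hμ (1 - ε) (by linarith)
    (by linarith)
  have hle1 : tmix G q θ x0 μ ε ≤ Real.log (Fintype.card V * ρ / ε) / θ :=
    csInf_le (bdd q θ G x0 μ ε) ha1
  have hle2 : tmix G q θ x0 μ (1 - ε) ≤ Real.log (Fintype.card V * ρ / (1 - ε)) / θ :=
    csInf_le (bdd q θ G x0 μ (1 - ε)) hb1
  have hge2 : 0 ≤ tmix G q θ x0 μ (1 - ε) := Real.sInf_nonneg (fun t ht => ht.1)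
  by_cases hnn : n0 ≤ Fintype.card V
  · -- main case
    obtain ⟨s, hs, hslt⟩ := exists_lt_of_csInf_lt ⟨_, hb1⟩
      (show tmix G q θ x0 μ (1 - ε) < tmix G q θ x0 μ (1 - ε) + 1 by linarith)
    obtain ⟨hs0, hstv⟩ := hs
    set r : ℝ := (2 * Real.log ρ + Real.log (Real.log (Fintype.card V)) + C1) / θ with hr
    have hr0 : 0 ≤ r := div_nonneg (by linarith) hθ.le
    set u : ℝ := 4 / θ * Real.log (Fintype.card V) with hu
    have hu0 : 0 ≤ u := mul_nonneg (by positivity) (by linarith)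
    set M : ℝ := 4 * ρ / θ * Real.log (Fintype.card V) with hM
    have hM0 : 0 ≤ M := mul_nonneg (by positivity) (by linarith)
    have hw := t_win V G q θ ρ hρ hq1 hθ hθ1 hd hD x0 μ s r u M hμ hs0 hr0 hu0 hM0
    by_cases htv : tv (law G q θ x0 (s + r)) μ ≤ ε
    · have : tmix G q θ x0 μ ε ≤ s + r :=
        csInf_le (bdd q θ G x0 μ ε) ⟨by linarith, htv⟩
      have hr' : r = (2 * Real.log ρ + Real.log (Real.log (Fintype.card V))) / θ + C1 / θ := by
        rw [hr]
        ring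
      linarith
    · exfalso
      push Not at htv
      have e1 : Real.exp (-θ * r) = K₀⁻¹ * (Real.log (Fintype.card V))⁻¹ * (ρ ^ 2)⁻¹ := by
        have : -θ * r = -(Real.log (Real.log (Fintype.card V))) + -C1 + -(Real.log (ρ ^ 2)) := by
          rw [hr, Real.log_pow]
          field_simp
          push_cast
          ring
        rw [this, Real.exp_add, Real.exp_add, Real.exp_neg, Real.exp_neg, Real.exp_neg,
          Real.exp_log (by linarith), hC1,
          Real.exp_log (by linarith), Real.exp_log (by positivity)]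
        ring
      have e2 : Real.exp (θ / 2 - θ * M / (2 * ρ)) =
          Real.exp (θ / 2) * ((Fintype.card V : ℝ) ^ 2)⁻¹ := by
        have : θ / 2 - θ * M / (2 * ρ) = θ / 2 + -(Real.log ((Fintype.card V : ℝ) ^ 2)) := by
          rw [hM, Real.log_pow]
          field_simp
          push_cast
          ring
        rw [this, Real.exp_add, Real.exp_neg, Real.exp_log (by positivity)]
      have e3 : Real.exp (-θ * u) = ((Fintype.card V : ℝ) ^ 4)⁻¹ := by
        have : -θ * u = -(Real.log ((Fintype.card V : ℝ) ^ 4)) := by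
          rw [hu, Real.log_pow]
          field_simp
          push_cast
          ring
        rw [this, Real.exp_neg, Real.exp_log (by positivity)]
      rw [e1, e2, e3] at hw
      have hlpos : 0 < Real.log (Fintype.card V) := by linarith
      have hK₀0 : 0 < K₀ := by linarith
      -- first term
      have t1 : 2 * (2 * (ρ * (K₀⁻¹ * (Real.log (Fintype.card V))⁻¹ * (ρ ^ 2)⁻¹) * M)) ≤
          ε ^ 3 / 2 := by
        have e : 2 * (2 * (ρ * (K₀⁻¹ * (Real.log (Fintype.card V))⁻¹ * (ρ ^ 2)⁻¹) * M)) =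
            16 / θ / K₀ := by
          rw [hM]
          field_simp
          ring
        rw [e, div_le_iff₀ hK₀0]
        have hK2 : 32 / (θ * ε ^ 3) ≤ K₀ := by
          rw [hK₀]
          linarith
        have h5 : ε ^ 3 / 2 * (32 / (θ * ε ^ 3)) ≤ ε ^ 3 / 2 * K₀ :=
          mul_le_mul_of_nonneg_left hK2 (by positivity)
        refine le_trans (le_of_eq ?_) h5
        field_simp
        ring
      have hlρn : Real.log ρ ≤ Real.log (Fintype.card V) := Real.log_le_log hρ0 hρn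
      have hsb : s + u ≤ (2 * Real.log (Fintype.card V) + Real.log (1 / (1 - ε))) / θ + 1 +
          4 / θ * Real.log (Fintype.card V) := by
        have e : Real.log (Fintype.card V * ρ / (1 - ε)) =
            Real.log (Fintype.card V) + Real.log ρ + Real.log (1 / (1 - ε)) := by
          rw [div_eq_mul_one_div, Real.log_mul (by positivity)
            (one_div_ne_zero (by linarith)), Real.log_mul (by linarith) (by linarith)]
        rw [e] at hle2
        have e5 : (Real.log (Fintype.card V) + Real.log ρ + Real.log (1 / (1 - ε))) / θ ≤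
            (2 * Real.log (Fintype.card V) + Real.log (1 / (1 - ε))) / θ :=
          div_le_div_of_nonneg_right (by linarith) hθ.le
        rw [hu]
        linarith
      have t2 : 2 * ((s + u) * Fintype.card V *
          (Real.exp (θ / 2) * ((Fintype.card V : ℝ) ^ 2)⁻¹) +
          3 * (Fintype.card V * ρ * ((Fintype.card V : ℝ) ^ 4)⁻¹)) ≤ ε ^ 3 / 2 := by
        have h6 := hn0 (Fintype.card V) hnn
        refine le_trans ?_ h6
        have e : 2 * ((s + u) * Fintype.card V *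
          (Real.exp (θ / 2) * ((Fintype.card V : ℝ) ^ 2)⁻¹) +
          3 * (Fintype.card V * ρ * ((Fintype.card V : ℝ) ^ 4)⁻¹)) =
          2 * (s + u) * (Real.exp (θ / 2) / Fintype.card V) +
            6 * ρ / (Fintype.card V : ℝ) ^ 3 := by
          field_simp
          ring
        rw [e]
        have h7 : 0 ≤ Real.exp (θ / 2) / (Fintype.card V : ℝ) := by positivity
        have h8 : 2 * (s + u) * (Real.exp (θ / 2) / Fintype.card V) ≤
            2 * ((2 * Real.log (Fintype.card V) + Real.log (1 / (1 - ε))) / θ + 1 +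
          4 / θ * Real.log (Fintype.card V)) * (Real.exp (θ / 2) / Fintype.card V) :=
          mul_le_mul_of_nonneg_right (by linarith) h7
        have h9 : 6 * ρ / (Fintype.card V : ℝ) ^ 3 ≤ 6 / (Fintype.card V : ℝ) ^ 2 := by
          rw [div_le_div_iff₀ (by positivity) (by positivity)]
          have : 0 ≤ (Fintype.card V : ℝ) ^ 2 := by positivity
          nlinarith
        linarith
      have h9 : ε ^ 2 < (tv (law G q θ x0 (s + r)) μ) ^ 2 := by
        nlinarith
      have h10 : ε ^ 3 < (tv (law G q θ x0 (s + r)) μ) ^ 2 *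
          (1 - tv (law G q θ x0 s) μ) := by
        have h11 : ε ≤ 1 - tv (law G q θ x0 s) μ := by linarith
        calc ε ^ 3 = ε ^ 2 * ε := by ring
          _ < (tv (law G q θ x0 (s + r)) μ) ^ 2 * ε := mul_lt_mul_of_pos_right h9 hε
          _ ≤ _ := mul_le_mul_of_nonneg_left h11 (sq_nonneg _)
      linarith
  · push Not at hnn
    have hnn' : (Fintype.card V : ℝ) ≤ n0 := by exact_mod_cast hnn.le
    have h4 : Real.log (Fintype.card V * ρ / ε) ≤ Real.log ((n0:ℝ) * n0 / ε) := by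
      apply Real.log_le_log
      · positivity
      · exact div_le_div_of_nonneg_right
          (mul_le_mul hnn' (hρn.trans hnn') hρ0.le (by linarith)) hε.le
    have h5 : Real.log (Fintype.card V * ρ / ε) / θ ≤ C2 := div_le_div_of_nonneg_right h4 hθ.le
    linarith

/-- **the window** -/
theorem window {θ ε : ℝ} (hθ : 0 < θ) (hθ1 : θ ≤ 1) (hε : 0 < ε) (hε1 : ε < 1) :
    ∃ C : ℝ, ∀ (q : ℕ) (V : Type) [Fintype V] [DecidableEq V] (G : SimpleGraph V) (x0 : V → Fin q)
      (μ : (V → Fin q) → ℝ) (ρ : ℝ), 1 ≤ q → (∀ v, 1 ≤ dg G v) →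
      (∀ v w, (dg G v : ℝ) ≤ ρ * dg G w) → 3 ≤ Fintype.card V →
      IsStat G q θ μ →
      tmix G q θ x0 μ ε - tmix G q θ x0 μ (1 - ε) ≤
        (2 * Real.log ρ + Real.log (Real.log (Fintype.card V))) / θ + C := by
  classical
  obtain ⟨C, hC⟩ := window1 hθ hθ1 hε hε1
  refine ⟨C, ?_⟩
  intro q V _ _ G x0 μ ρ hq hd hD hn hμ
  have hV : Nonempty V := Fintype.card_pos_iff.1 (by omega)
  obtain ⟨v0⟩ := hV
  have hρ : 1 ≤ ρ := by
    have h1 : (1 : ℝ) ≤ dg G v0 := by exact_mod_cast hd v0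
    have h2 := hD v0 v0
    nlinarith
  by_cases hρn : ρ ≤ Fintype.card V
  · exact hC q V G x0 μ ρ hq hd hρ hD hn hρn hμ
  · rw [not_le] at hρn
    have hn3 : (3:ℝ) ≤ Fintype.card V := by exact_mod_cast hn
    have h3 := hC q V G x0 μ (Fintype.card V) hq hd (by linarith) (fun v w => by
      have e1 : (dg G v : ℝ) ≤ Fintype.card V := by
        unfold dg
        exact_mod_cast Finset.card_le_univ _
      have e2 : (1 : ℝ) ≤ dg G w := by exact_mod_cast hd w
      nlinarith) hn le_rfl hμ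
    refine h3.trans ?_
    have h4 : Real.log (Fintype.card V) ≤ Real.log ρ := Real.log_le_log (by linarith) hρn.le
    have h5 : (2 * Real.log (Fintype.card V) + Real.log (Real.log (Fintype.card V))) / θ ≤
        (2 * Real.log ρ + Real.log (Real.log (Fintype.card V))) / θ :=
      div_le_div_of_nonneg_right (by linarith) hθ.le
    linarith

/-- **the lower bound of the mixing time** -/
theorem order {θ ε : ℝ} (hθ : 0 < θ) (hθ1 : θ ≤ 1) (hε : 0 < ε) (hε1 : ε < 1) :
    ∃ C : ℝ, ∀ (q : ℕ) (V : Type) [Fintype V] [DecidableEq V] (G : SimpleGraph V) (x0 : V → Fin q)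
      (μ : (V → Fin q) → ℝ) (ρ : ℝ), 2 ≤ q → (∀ v, 1 ≤ dg G v) →
      (∀ v w, (dg G v : ℝ) ≤ ρ * dg G w) → 3 ≤ Fintype.card V →
      IsStat G q θ μ →
      (Real.log (Fintype.card V) - 4 * Real.log ρ - 4 * Real.log q -
        Real.log (Real.log (Fintype.card V))) / 8 - C ≤ tmix G q θ x0 μ ε := by
  classical
  set K : ℝ := 8 / θ ^ 2 * Real.exp (θ / 2) with hK
  have hK0 : 0 ≤ K := by positivity
  set A : ℝ := 2 * ((1 + 4 / θ) * K + 5) with hA
  have hA1 : 1 ≤ A := by
    have : 0 ≤ (1 + 4 / θ) * K := by positivity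
    linarith
  have h1e : 0 < 1 - ε := by linarith
  set B : ℝ := A / (1 - ε) with hB
  have hB0 : 0 < B := by positivity
  refine ⟨Real.log B / 8, ?_⟩
  intro q V _ _ G x0 μ ρ hq hd hD hn hμ
  have hV : Nonempty V := Fintype.card_pos_iff.1 (by omega)
  obtain ⟨v0⟩ := hV
  have hρ : 1 ≤ ρ := by
    have h1 : (1 : ℝ) ≤ dg G v0 := by exact_mod_cast hd v0
    have h2 := hD v0 v0
    nlinarith
  have hB1 : 1 ≤ B := by
    rw [hB, le_div_iff₀ h1e]
    linarith
  have hlB : 0 ≤ Real.log B := Real.log_nonneg hB1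
  have hρ0 : 0 < ρ := by linarith
  have hq1 : 1 ≤ q := by omega
  have hqr : (2 : ℝ) ≤ q := by exact_mod_cast hq
  have hq0 : (0 : ℝ) < q := by linarith
  have hlog1 : 1 < Real.log (Fintype.card V) := one_lt_log hn
  have hll : 0 ≤ Real.log (Real.log (Fintype.card V)) := Real.log_nonneg hlog1.le
  have hlρ : 0 ≤ Real.log ρ := Real.log_nonneg hρ
  have hlq : 0 ≤ Real.log q := Real.log_nonneg (by linarith)
  have hn3 : (3:ℝ) ≤ Fintype.card V := by exact_mod_cast hn
  set N : ℝ := (Fintype.card V : ℝ) with hN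
  have hN0 : 0 < N := by linarith
  set L : ℝ := Real.log N with hL
  have hL0 : 0 < L := by linarith
  obtain ⟨-, hmem⟩ := mem_tm hq1 hθ hθ1 hρ G x0 μ hd hD hn hμ ε hε hε1
  refine le_csInf ⟨_, hmem⟩ ?_
  rintro t ⟨ht0, htv⟩
  by_contra hcon
  rw [not_le] at hcon
  have htL : t ≤ L := by linarith
  have hu0 : 0 ≤ (4 / θ) * L := by positivity
  have hlow := t_low V G q θ ρ hρ hq hθ hθ1 hd hD x0 μ t ((4 / θ) * L) hμ ht0 hu0
  rw [← hN] at hlow
  have e2 : Real.exp (-θ * ((4 / θ) * L)) = (N ^ 4)⁻¹ := by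
    have : -θ * ((4 / θ) * L) = -(Real.log (N ^ 4)) := by
      rw [Real.log_pow, hL]
      field_simp
      push_cast
      ring
    rw [this, Real.exp_neg, Real.exp_log (by positivity)]
  rw [e2] at hlow
  -- the right side
  have hrhs : 2 * ((t + 4 / θ * L) * N * ρ ^ 2 * (8 * ρ ^ 2 / θ ^ 2 * Real.exp (θ / 2)) +
      5 * (N * ρ) ^ 2 * (N * ρ * (N ^ 4)⁻¹)) ≤ A * (L * N * ρ ^ 4) := by
    have f1 : (t + 4 / θ * L) * N * ρ ^ 2 * (8 * ρ ^ 2 / θ ^ 2 * Real.exp (θ / 2)) =
        (t + 4 / θ * L) * (N * ρ ^ 4 * K) := by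
      rw [hK]
      ring
    have f2 : (t + 4 / θ * L) * (N * ρ ^ 4 * K) ≤ ((1 + 4 / θ) * L) * (N * ρ ^ 4 * K) :=
      mul_le_mul_of_nonneg_right (by linarith) (by positivity)
    have f3 : 5 * (N * ρ) ^ 2 * (N * ρ * (N ^ 4)⁻¹) = 5 * (ρ ^ 3 / N) := by
      field_simp
    have f4 : ρ ^ 3 / N ≤ L * N * ρ ^ 4 := by
      rw [div_le_iff₀ hN0]
      have g1 : ρ ^ 3 ≤ ρ ^ 4 := pow_le_pow_right₀ hρ (by norm_num)
      have g0 : 3 ≤ L * N := by nlinarith
      have g2 : 1 ≤ L * N * N := by nlinarith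
      have g3 : 0 ≤ ρ ^ 4 := by positivity
      nlinarith
    rw [f1, f3, hA]
    nlinarith
  have hlhs : (1 - ε) * (N * Real.exp (-4 * t) / (q : ℝ) ^ 2) ^ 2 ≤
      (1 - tv (law G q θ x0 t) μ) * (N * Real.exp (-4 * t) / (q : ℝ) ^ 2) ^ 2 :=
    mul_le_mul_of_nonneg_right (by linarith) (sq_nonneg _)
  have hmain := (hlhs.trans hlow).trans hrhs
  have hsq : (N * Real.exp (-4 * t) / (q : ℝ) ^ 2) ^ 2 = N * (N * Real.exp (-(8 * t)) / q ^ 4) := by
    have : Real.exp (-(8 * t)) = Real.exp (-4 * t) ^ 2 := by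
      rw [← Real.exp_nat_mul]
      congr 1
      push_cast
      ring
    rw [this]
    field_simp
  rw [hsq] at hmain
  have h3 : N ≤ B * L * ρ ^ 4 * q ^ 4 * Real.exp (8 * t) := by
    have g1 : (1 - ε) * (N * Real.exp (-(8 * t)) / q ^ 4) ≤ A * (L * ρ ^ 4) := by
      have : N * ((1 - ε) * (N * Real.exp (-(8 * t)) / q ^ 4)) ≤ N * (A * (L * ρ ^ 4)) := by
        refine le_trans (le_of_eq ?_) (hmain.trans (le_of_eq ?_))
        · ring
        · ring
      exact le_of_mul_le_mul_left this hN0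
    have g2 : N * Real.exp (-(8 * t)) / q ^ 4 ≤ B * (L * ρ ^ 4) := by
      rw [hB, div_mul_eq_mul_div, le_div_iff₀ h1e]
      linarith
    rw [div_le_iff₀ (by positivity)] at g2
    have g3 : N = N * Real.exp (-(8 * t)) * Real.exp (8 * t) := by
      rw [mul_assoc, ← Real.exp_add]
      simp
    rw [g3]
    refine (mul_le_mul_of_nonneg_right g2 (Real.exp_pos _).le).trans (le_of_eq ?_)
    ring
  have h4 : Real.log N ≤ Real.log B + Real.log L + 4 * Real.log ρ + 4 * Real.log q + 8 * t := by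
    have g1 := Real.log_le_log hN0 h3
    rw [Real.log_mul (by positivity) (by positivity), Real.log_mul (by positivity) (by positivity),
      Real.log_mul (by positivity) (by positivity), Real.log_mul (by positivity) (by positivity),
      Real.log_pow, Real.log_pow, Real.log_exp] at g1
    push_cast at g1
    exact g1
  rw [← hL] at h4
  linarith

end Pool.Agent.H5.NV
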