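import Pool.Graph.R_seed8.W788.NV.Asm

/-!
# The noisy voter model and the ratio of the degrees: the statements of the parts

The library bounds everything by the maximal degree. Here the bounds depend on the ratio `Δ` of the maximal and
the minimal degree only.
-/

set_option autoImplicit false

namespace Pool.Agent.H5.NV

open Finset Pool.Agent.W788.NV

/-- consequences for the random map at time `t` -/
def T_BND : Prop := ∀ (V : Type) [Fintype V] [DecidableEq V] (G : SimpleGraph V) (q : ℕ) (θ : ℝ)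
    (Δ : ℝ), 1 ≤ Δ → 1 ≤ q → 0 < θ → θ ≤ 1 → (∀ v, 1 ≤ dg G v) →
    (∀ v w, (dg G v : ℝ) ≤ Δ * dg G w) →
    ∀ (v : V) (t : ℝ), 0 ≤ t →
    ex G q θ t (fun Φ => ((dep Φ v).card : ℝ)) ≤ Δ * Real.exp (-θ * t) ∧
    True ∧
    (∀ M : ℝ, 0 ≤ M → ex G q θ t (fun Φ => if M < ((dep Φ v).card : ℝ) then 1 else 0) ≤
      Real.exp (θ / 2 - θ * M / (2 * Δ))) ∧
    ex G q θ t (fun Φ => ((dep Φ v).card : ℝ) ^ 2) ≤ 8 * Δ ^ 2 / θ ^ 2 * Real.exp (θ / 2) ∧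
    ex G q θ t (fun Φ => if (dep Φ v).Nonempty then 1 else 0) ≤ Δ * Real.exp (-θ * t)

/-- the variance inequality -/
def T_MAIN : Prop := ∀ (V : Type) [Fintype V] [DecidableEq V] (G : SimpleGraph V) (q : ℕ) (θ : ℝ)
    (Δ : ℝ), 1 ≤ Δ → 1 ≤ q → 0 < θ → θ ≤ 1 → (∀ v, 1 ≤ dg G v) →
    (∀ v w, (dg G v : ℝ) ≤ Δ * dg G w) →
    ∀ (s r M : ℝ) (g : (V → Fin q) → ℝ) (x0 : V → Fin q), 0 ≤ s → 0 ≤ r → 0 ≤ M →
    (∀ x, 0 ≤ g x ∧ g x ≤ 1) →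
    pt G q θ s (fun x => (pt G q θ r g x) ^ 2) x0 - (pt G q θ s (pt G q θ r g) x0) ^ 2 ≤
      Δ * Real.exp (-θ * r) * M +
        s * Fintype.card V * Real.exp (θ / 2 - θ * M / (2 * Δ))

/-- variance of functions with bounded sensitivities -/
def T_LIN : Prop := ∀ (V : Type) [Fintype V] [DecidableEq V] (G : SimpleGraph V) (q : ℕ) (θ : ℝ)
    (Δ : ℝ), 1 ≤ Δ → 1 ≤ q → 0 < θ → θ ≤ 1 → (∀ v, 1 ≤ dg G v) →
    (∀ v w, (dg G v : ℝ) ≤ Δ * dg G w) →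
    ∀ (t B : ℝ) (h : (V → Fin q) → ℝ) (x0 : V → Fin q), 0 ≤ t → 0 ≤ B →
    (∀ (x y : V → Fin q), |h x - h y| ≤ B * ((univ.filter (fun w => x w ≠ y w)).card : ℝ)) →
    pt G q θ t (fun x => (h x) ^ 2) x0 - (pt G q θ t h x0) ^ 2 ≤
      t * Fintype.card V * B ^ 2 * (8 * Δ ^ 2 / θ ^ 2 * Real.exp (θ / 2))

/-- the oscillation of the semigroup decays -/
def T_OSC : Prop := ∀ (V : Type) [Fintype V] [DecidableEq V] (G : SimpleGraph V) (q : ℕ) (θ : ℝ)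
    (Δ : ℝ), 1 ≤ Δ → 1 ≤ q → 0 < θ → θ ≤ 1 → (∀ v, 1 ≤ dg G v) →
    (∀ v w, (dg G v : ℝ) ≤ Δ * dg G w) →
    ∀ (t c : ℝ) (h : (V → Fin q) → ℝ) (x y : V → Fin q), 0 ≤ t → (∀ z z', h z - h z' ≤ c) →
    pt G q θ t h x - pt G q θ t h y ≤ c * (Fintype.card V * Δ * Real.exp (-θ * t))

/-- evolution of the one-point biases -/
def T_ONE : Prop := ∀ (V : Type) [Fintype V] [DecidableEq V] (G : SimpleGraph V) (q : ℕ) (θ : ℝ),
    2 ≤ q → 0 < θ → θ ≤ 1 → (∀ v, 1 ≤ dg G v) → ∀ (δ : ℝ), 0 < δ → (∀ v, δ ≤ dg G v) →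
    ∀ (x0 : V → Fin q) (a : Fin q) (t : ℝ), 0 ≤ t →
    δ * ((Fintype.card V : ℝ) * Real.exp (-4 * t) / q ^ 2) ≤
      ∑ v, (dg G v : ℝ) * (pt G q θ t (fun x => if x v = a then 1 else 0) x0 - 1 / q) ^ 2 ∧
    ∀ μ, IsStat G q θ μ → ∀ v, mean μ (fun x => if x v = a then 1 else 0) = 1 / q

/-- the window inequality -/
def T_WIN : Prop := ∀ (V : Type) [Fintype V] [DecidableEq V] (G : SimpleGraph V) (q : ℕ) (θ : ℝ)
    (Δ : ℝ), 1 ≤ Δ → 1 ≤ q → 0 < θ → θ ≤ 1 → (∀ v, 1 ≤ dg G v) →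
    (∀ v w, (dg G v : ℝ) ≤ Δ * dg G w) →
    ∀ (x0 : V → Fin q) (μ : (V → Fin q) → ℝ) (s r u M : ℝ), IsStat G q θ μ →
    0 ≤ s → 0 ≤ r → 0 ≤ u → 0 ≤ M →
    (tv (law G q θ x0 (s + r)) μ) ^ 2 * (1 - tv (law G q θ x0 s) μ) ≤
      2 * (2 * (Δ * Real.exp (-θ * r) * M) +
        (s + u) * Fintype.card V * Real.exp (θ / 2 - θ * M / (2 * Δ)) +
        3 * (Fintype.card V * Δ * Real.exp (-θ * u)))

/-- the lower bound -/
def T_LOW : Prop := ∀ (V : Type) [Fintype V] [DecidableEq V] (G : SimpleGraph V) (q : ℕ) (θ : ℝ)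
    (Δ : ℝ), 1 ≤ Δ → 2 ≤ q → 0 < θ → θ ≤ 1 → (∀ v, 1 ≤ dg G v) →
    (∀ v w, (dg G v : ℝ) ≤ Δ * dg G w) →
    ∀ (x0 : V → Fin q) (μ : (V → Fin q) → ℝ) (t u : ℝ), IsStat G q θ μ → 0 ≤ t → 0 ≤ u →
    (1 - tv (law G q θ x0 t) μ) * (Fintype.card V * Real.exp (-4 * t) / q ^ 2) ^ 2 ≤
      2 * ((t + u) * Fintype.card V * Δ ^ 2 * (8 * Δ ^ 2 / θ ^ 2 * Real.exp (θ / 2)) +
        5 * (Fintype.card V * Δ) ^ 2 * (Fintype.card V * Δ * Real.exp (-θ * u)))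

/-- the law is near the stationary law at time of order `log n` -/
def T_UPP : Prop := ∀ (V : Type) [Fintype V] [DecidableEq V] (G : SimpleGraph V) (q : ℕ) (θ : ℝ)
    (Δ : ℝ), 1 ≤ Δ → 1 ≤ q → 0 < θ → θ ≤ 1 → (∀ v, 1 ≤ dg G v) →
    (∀ v w, (dg G v : ℝ) ≤ Δ * dg G w) →
    ∀ (x0 : V → Fin q) (μ : (V → Fin q) → ℝ) (t : ℝ), IsStat G q θ μ → 0 ≤ t →
    tv (law G q θ x0 t) μ ≤ Fintype.card V * Δ * Real.exp (-θ * t)

/-- the minimal degree -/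
theorem exists_min {V : Type} [Fintype V] {G : SimpleGraph V} {Δ : ℝ} (h1 : 1 ≤ Δ)
    (hd1 : ∀ v, 1 ≤ dg G v) (hd : ∀ v w, (dg G v : ℝ) ≤ Δ * dg G w) :
    ∃ δ : ℝ, 0 < δ ∧ (∀ v, δ ≤ dg G v) ∧ (∀ v, (dg G v : ℝ) ≤ Δ * δ) ∧
      ∃ D : ℕ, (∀ v, dg G v ≤ D) ∧ (D : ℝ) ≤ Δ * δ := by
  classical
  rcases isEmpty_or_nonempty V with hV | hV
  · refine ⟨1, one_pos, fun v => (hV.false v).elim, fun v => (hV.false v).elim, 1,
      fun v => (hV.false v).elim, ?_⟩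
    push_cast
    linarith
  · obtain ⟨w, -, hw⟩ := Finset.exists_min_image (univ : Finset V) (fun v => dg G v) univ_nonempty
    obtain ⟨z, -, hz⟩ := Finset.exists_max_image (univ : Finset V) (fun v => dg G v) univ_nonempty
    refine ⟨dg G w, ?_, fun v => ?_, fun v => hd v w, dg G z, fun v => hz v (mem_univ v), hd z w⟩
    · have : (1 : ℝ) ≤ dg G w := by exact_mod_cast hd1 w
      linarith
    · exact_mod_cast hw v (mem_univ v)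

end Pool.Agent.H5.NV
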